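import Mathlib

/-!
# Feynman checkers: the definitions of problem MP_10800c_mp
-/

namespace Pool.Agent.Work.MP_10800c_mp

/-- The difference of the consecutive points `P`, `Q` is `(1,1)` or `(-1,1)`. -/
def IsStep (P Q : ℤ × ℤ) : Prop := Q - P = (1, 1) ∨ Q - P = (-1, 1)

/-- A checker path: a finite sequence of points of `ℤ²` in which every consecutive difference is
`(1,1)` or `(-1,1)`. -/
def IsCheckerPath (s : List (ℤ × ℤ)) : Prop := s.IsChain IsStep

/-- The number of turns of a path: the number of interior points at which the incoming and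
outgoing steps are orthogonal. -/
def turns : List (ℤ × ℤ) → ℕ
  | P :: Q :: R :: l =>
      (if (Q - P).1 * (R - Q).1 + (Q - P).2 * (R - Q).2 = 0 then 1 else 0) + turns (Q :: R :: l)
  | _ => 0

/-- The checker paths that start at `(0,0)`, end at `(x,t)`, and whose first step goes to
`(1,1)`. -/
def Paths (x : ℤ) (t : ℕ) : Set (List (ℤ × ℤ)) :=
  {s | IsCheckerPath s ∧ s[0]? = some (0, 0) ∧ s[1]? = some (1, 1) ∧
    s.getLast? = some (x, (t : ℤ))}

/-- The function `a(x,t) = 2^{(1-t)/2} i ∑_s (-i)^{turns(s)}`. -/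
noncomputable def a (x : ℤ) (t : ℕ) : ℂ :=
  (((2 : ℝ) ^ ((1 - (t : ℝ)) / 2) : ℝ) : ℂ) * Complex.I *
    ∑ᶠ s ∈ Paths x t, (-Complex.I) ^ turns s

/-- The sum `S_v(t)` of the problem: the sum of `(2/t) |a₂(x,t)/a(x,t)|²` over the integers
`0 ≤ x ≤ v t` with `x ≡ t (mod 2)`, where `a₂ = Im a`. -/
noncomputable def S (v : ℝ) (t : ℕ) : ℝ :=
  ∑ x ∈ (Finset.Icc (0 : ℤ) ⌊v * t⌋).filter (fun x => x ≡ (t : ℤ) [ZMOD 2]),
    2 / (t : ℝ) * ‖(((a x t).im : ℝ) : ℂ) / a x t‖ ^ 2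

end Pool.Agent.Work.MP_10800c_mp
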