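import Mathlib
import Pool.Agent.Work.MP_10800c_mp.Defs

/-!
# Feynman checkers: from path sums to recurrences
-/

namespace Pool.Agent.Work.MP_10800c_mp

open Complex

/-- The two integer arrays `α(x,n+1)`, `β(x,n+1)`: `a(x,t) = 2^{(1-t)/2}(α + iβ)`. -/
def ab : ℕ → ℤ → ℤ × ℤ
  | 0, x => (0, if x = 1 then 1 else 0)
  | n + 1, x => ((ab n (x + 1)).2 + (ab n (x + 1)).1, (ab n (x - 1)).2 - (ab n (x - 1)).1)

/-- `α(x,n+1)`. -/
def al (n : ℕ) (x : ℤ) : ℤ := (ab n x).1

/-- `β(x,n+1)`. -/
def be (n : ℕ) (x : ℤ) : ℤ := (ab n x).2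

lemma al_zero (x : ℤ) : al 0 x = 0 := rfl
lemma be_zero (x : ℤ) : be 0 x = if x = 1 then 1 else 0 := rfl
lemma al_succ (n : ℕ) (x : ℤ) : al (n + 1) x = be n (x + 1) + al n (x + 1) := rfl
lemma be_succ (n : ℕ) (x : ℤ) : be (n + 1) x = be n (x - 1) - al n (x - 1) := rfl

lemma first_step (n : ℕ) : ∀ x : ℤ,
    al (n + 1) x = al n (x - 1) + be n (1 - x) ∧ be (n + 1) x = be n (x - 1) - al n (1 - x) := by
  induction n with
  | zero =>
    intro x
    rw [al_succ, be_succ, al_zero, al_zero, al_zero, be_zero, be_zero, be_zero]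
    refine ⟨?_, by ring⟩
    by_cases h : x = 0
    · subst h; simp
    · rw [if_neg (by omega), if_neg (by omega)]
  | succ n ih =>
    intro x
    have h1 := ih (x + 1)
    have h2 := ih (x - 1)
    have e1 : x + 1 - 1 = x := by ring
    have e2 : 1 - (x + 1) = -x := by ring
    have e3 : 1 - (x - 1) = 2 - x := by ring
    have e5 : (1 - x) + 1 = 2 - x := by ring
    have e6 : (1 - x) - 1 = -x := by ring
    have e7 : x - 1 + 1 = x := by ring
    rw [e1, e2] at h1
    rw [e3] at h2
    have k1 := al_succ (n + 1) x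
    have k2 := al_succ n (x - 1)
    have k3 := be_succ n (1 - x)
    have k4 := be_succ (n + 1) x
    have k5 := be_succ n (x - 1)
    have k6 := al_succ n (1 - x)
    rw [e7] at k2
    rw [e6] at k3
    rw [e5] at k6
    constructor
    · linear_combination k1 + h1.1 + h1.2 - k2 - k3
    · linear_combination k4 + h2.2 - h2.1 - k5 + k6

/-- The direction vector. -/
def dir (d : Bool) : ℤ × ℤ := if d then (1, 1) else (-1, 1)

/-- The checker paths with `n + 1` steps from `P` with first direction `d`. -/
def pathsFrom : ℕ → ℤ × ℤ → Bool → Finset (List (ℤ × ℤ))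
  | 0, P, d => {[P, P + dir d]}
  | n + 1, P, d =>
      ((pathsFrom n (P + dir d) true) ∪ (pathsFrom n (P + dir d) false)).image (List.cons P)

lemma mem_pathsFrom (n : ℕ) : ∀ (P : ℤ × ℤ) (d : Bool) (s : List (ℤ × ℤ)),
    s ∈ pathsFrom n P d ↔ IsCheckerPath s ∧ s.length = n + 2 ∧ s[0]? = some P ∧
      s[1]? = some (P + dir d) := by
  induction n with
  | zero =>
    intro P d s
    simp only [pathsFrom, Finset.mem_singleton]
    constructor
    · rintro rfl
      refine ⟨?_, rfl, rfl, rfl⟩
      rw [IsCheckerPath, List.isChain_cons_cons]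
      refine ⟨?_, by simp⟩
      rw [IsStep, add_sub_cancel_left]
      cases d <;> simp [dir]
    · rintro ⟨-, h2, h3, h4⟩
      match s, h2, h3, h4 with
      | [A, B], _, h3, h4 =>
        simp only [List.getElem?_cons_zero, Option.some.injEq] at h3
        simp only [List.getElem?_cons_succ, List.getElem?_cons_zero, Option.some.injEq] at h4
        rw [h3, h4]
  | succ n ih =>
    intro P d s
    simp only [pathsFrom, Finset.mem_image, Finset.mem_union, ih]
    constructor
    · rintro ⟨s', h | h, rfl⟩
      all_goals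
        obtain ⟨h1, h2, h3, h4⟩ := h
        refine ⟨?_, by simp [h2], by simp, by simpa using h3⟩
        match s', h1, h2, h3 with
        | (A :: l), h1, _, h3 =>
          simp only [List.getElem?_cons_zero, Option.some.injEq] at h3
          subst h3
          rw [IsCheckerPath, List.isChain_cons_cons]
          refine ⟨?_, h1⟩
          rw [IsStep, add_sub_cancel_left]
          cases d <;> simp [dir]
    · rintro ⟨h1, h2, h3, h4⟩
      match s, h1, h2, h3, h4 with
      | (A :: B :: C :: l), h1, h2, h3, h4 =>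
        simp only [List.getElem?_cons_zero, Option.some.injEq] at h3
        simp only [List.getElem?_cons_succ, List.getElem?_cons_zero, Option.some.injEq] at h4
        subst h3
        subst h4
        rw [IsCheckerPath, List.isChain_cons_cons] at h1
        have h5 := h1.2
        rw [List.isChain_cons_cons] at h5
        refine ⟨_ :: C :: l, ?_, rfl⟩
        have h6 := h5.1
        rw [IsStep] at h6
        rcases h6 with h6 | h6
        · left
          refine ⟨h1.2, by simpa using h2, by simp, ?_⟩
          simp only [List.getElem?_cons_succ, List.getElem?_cons_zero, Option.some.injEq]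
          rw [← sub_add_cancel C (A + dir d), h6]
          simp [dir, add_comm]
        · right
          refine ⟨h1.2, by simpa using h2, by simp, ?_⟩
          simp only [List.getElem?_cons_succ, List.getElem?_cons_zero, Option.some.injEq]
          rw [← sub_add_cancel C (A + dir d), h6]
          simp [dir, add_comm]

/-- The sum over the paths from `P` with first direction `d` and `n + 1` steps, ending at `T`. -/
noncomputable def Z (n : ℕ) (P : ℤ × ℤ) (d : Bool) (T : ℤ × ℤ) : ℂ :=
  ∑ s ∈ (pathsFrom n P d).filter (fun s => s.getLast? = some T), (-I) ^ turns s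

lemma turns_cons (n : ℕ) (P : ℤ × ℤ) (d d' : Bool) (s : List (ℤ × ℤ))
    (hs : s ∈ pathsFrom n (P + dir d) d') :
    turns (P :: s) = (if d = d' then 0 else 1) + turns s := by
  rw [mem_pathsFrom] at hs
  obtain ⟨h1, h2, h3, h4⟩ := hs
  match s, h2, h3, h4 with
  | (B :: C :: l), h2, h3, h4 =>
    simp only [List.getElem?_cons_zero, Option.some.injEq] at h3
    simp only [List.getElem?_cons_succ, List.getElem?_cons_zero, Option.some.injEq] at h4
    subst h3
    subst h4
    rw [turns, add_sub_cancel_left, add_sub_cancel_left]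
    cases d <;> cases d' <;> simp [dir]

lemma getLast_cons (n : ℕ) (P Q : ℤ × ℤ) (d : Bool) (s : List (ℤ × ℤ))
    (hs : s ∈ pathsFrom n Q d) : (P :: s).getLast? = s.getLast? := by
  rw [mem_pathsFrom] at hs
  obtain ⟨h1, h2, h3, h4⟩ := hs
  match s, h2 with
  | (B :: C :: l), h2 => rw [List.getLast?_cons_cons]

lemma Z_zero (P : ℤ × ℤ) (d : Bool) (T : ℤ × ℤ) :
    Z 0 P d T = if P + dir d = T then 1 else 0 := by
  simp only [Z, pathsFrom, Finset.filter_singleton]
  simp only [List.getLast?_cons_cons, List.getLast?_singleton, Option.some.injEq]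
  split_ifs
  · simp [turns]
  · simp

lemma Z_succ (n : ℕ) (P : ℤ × ℤ) (d : Bool) (T : ℤ × ℤ) :
    Z (n + 1) P d T = (if d = true then 1 else -I) * Z n (P + dir d) true T
      + (if d = false then 1 else -I) * Z n (P + dir d) false T := by
  have hdisj : Disjoint ((pathsFrom n (P + dir d) true).filter (fun s => s.getLast? = some T))
      ((pathsFrom n (P + dir d) false).filter (fun s => s.getLast? = some T)) := by
    rw [Finset.disjoint_left]
    intro s h1 h2
    rw [Finset.mem_filter, mem_pathsFrom] at h1 h2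
    have h3 := h1.1.2.2.2
    rw [h2.1.2.2.2] at h3
    simp only [Option.some.injEq, add_right_inj] at h3
    simp [dir] at h3
  have h1 : (pathsFrom (n + 1) P d).filter (fun s => s.getLast? = some T)
      = (((pathsFrom n (P + dir d) true).filter (fun s => s.getLast? = some T)).disjUnion
        ((pathsFrom n (P + dir d) false).filter (fun s => s.getLast? = some T)) hdisj).image
          (List.cons P) := by
    ext s
    simp only [pathsFrom, Finset.mem_filter, Finset.mem_image, Finset.mem_union,
      Finset.mem_disjUnion]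
    constructor
    · rintro ⟨⟨s', h | h, rfl⟩, h2⟩
      · exact ⟨s', Or.inl ⟨h, by rw [← getLast_cons _ P _ _ _ h]; exact h2⟩, rfl⟩
      · exact ⟨s', Or.inr ⟨h, by rw [← getLast_cons _ P _ _ _ h]; exact h2⟩, rfl⟩
    · rintro ⟨s', h | h, rfl⟩
      · exact ⟨⟨s', Or.inl h.1, rfl⟩, by rw [getLast_cons _ P _ _ _ h.1]; exact h.2⟩
      · exact ⟨⟨s', Or.inr h.1, rfl⟩, by rw [getLast_cons _ P _ _ _ h.1]; exact h.2⟩
  rw [Z, h1, Finset.sum_image (fun a _ b _ h => List.cons_injective h), Finset.sum_disjUnion]
  congr 1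
  · rw [Z, Finset.mul_sum]
    refine Finset.sum_congr rfl fun s hs => ?_
    rw [Finset.mem_filter] at hs
    rw [turns_cons n P d true s hs.1, pow_add]
    cases d <;> simp
  · rw [Z, Finset.mul_sum]
    refine Finset.sum_congr rfl fun s hs => ?_
    rw [Finset.mem_filter] at hs
    rw [turns_cons n P d false s hs.1, pow_add]
    cases d <;> simp

lemma Z_eq (n : ℕ) : ∀ (P : ℤ × ℤ) (x y : ℤ),
    Z n P true (x, y) = (if y = P.2 + n + 1 then (be n (x - P.1) : ℂ) - I * al n (x - P.1) else 0) ∧
    Z n P false (x, y) =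
      (if y = P.2 + n + 1 then (be n (P.1 - x) : ℂ) - I * al n (P.1 - x) else 0) := by
  induction n with
  | zero =>
    intro P x y
    rw [Z_zero, Z_zero]
    obtain ⟨p, q⟩ := P
    simp only [dir, if_true, Prod.mk_add_mk, Prod.mk.injEq, Nat.cast_zero, add_zero,
      Bool.false_eq_true, if_false, al_zero, be_zero, Int.cast_zero, mul_zero, sub_zero]
    constructor
    · by_cases h1 : y = q + 1
      · by_cases h2 : x - p = 1
        · rw [if_pos ⟨by omega, by omega⟩, if_pos h1, if_pos h2]; simp
        · rw [if_neg (by omega), if_pos h1, if_neg h2]; simp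
      · rw [if_neg (by omega), if_neg h1]
    · by_cases h1 : y = q + 1
      · by_cases h2 : p - x = 1
        · rw [if_pos ⟨by omega, by omega⟩, if_pos h1, if_pos h2]; simp
        · rw [if_neg (by omega), if_pos h1, if_neg h2]; simp
      · rw [if_neg (by omega), if_neg h1]
  | succ n ih =>
    intro P x y
    obtain ⟨p, q⟩ := P
    rw [Z_succ, Z_succ]
    simp only [dir, if_true, Prod.mk_add_mk, Bool.false_eq_true, if_false, Bool.true_eq_false]
    have h1 := ih (p + 1, q + 1) x y
    have h2 := ih (p + -1, q + 1) x y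
    simp only at h1 h2
    have e0 : (y = q + 1 + n + 1) ↔ (y = q + ((n + 1 : ℕ) : ℤ) + 1) := by push_cast; omega
    rw [h1.1, h1.2, h2.1, h2.2]
    simp only [e0]
    have I2 : I * I = -1 := I_mul_I
    constructor
    · split_ifs
      · obtain ⟨f1, f2⟩ := first_step n (x - p)
        rw [f1, f2]
        have e1 : x - (p + 1) = x - p - 1 := by ring
        have e2 : p + 1 - x = 1 - (x - p) := by ring
        rw [e1, e2]
        push_cast
        linear_combination ((al n (1 - (x - p)) : ℂ)) * I2
      · simp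
    · split_ifs
      · obtain ⟨f1, f2⟩ := first_step n (p - x)
        rw [f1, f2]
        have e1 : x - (p + -1) = 1 - (p - x) := by ring
        have e2 : p + -1 - x = p - x - 1 := by ring
        rw [e1, e2]
        push_cast
        linear_combination ((al n (1 - (p - x)) : ℂ)) * I2
      · simp

lemma last_snd (l : List (ℤ × ℤ)) : ∀ (P T : ℤ × ℤ), IsCheckerPath (P :: l) →
    (P :: l).getLast? = some T → T.2 = P.2 + l.length := by
  induction l with
  | nil =>
    intro P T _ h
    simp only [List.getLast?_singleton, Option.some.injEq] at h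
    subst h; simp
  | cons Q l ih =>
    intro P T h1 h2
    rw [List.getLast?_cons_cons] at h2
    rw [IsCheckerPath, List.isChain_cons_cons] at h1
    have h3 := ih Q T h1.2 h2
    have h4 : Q.2 = P.2 + 1 := by
      rcases h1.1 with h | h
      · have := congrArg Prod.snd h
        simp only [Prod.snd_sub] at this
        omega
      · have := congrArg Prod.snd h
        simp only [Prod.snd_sub] at this
        omega
    rw [h3, h4, List.length_cons]
    push_cast
    ring

/-- The integer arrays give `a(x,t)`. -/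
theorem a_eq (x : ℤ) (n : ℕ) :
    a x (n + 1) = (((2 : ℝ) ^ ((1 - ((n + 1 : ℕ) : ℝ)) / 2) : ℝ) : ℂ) *
      ((al n x : ℂ) + I * (be n x : ℂ)) := by
  have h1 : Paths x (n + 1) = (((pathsFrom n (0, 0) true).filter
      (fun s => s.getLast? = some (x, ((n + 1 : ℕ) : ℤ))) : Finset _) : Set (List (ℤ × ℤ))) := by
    ext s
    simp only [Paths, Set.mem_ofPred_eq, Finset.coe_filter, mem_pathsFrom]
    constructor
    · rintro ⟨h1, h2, h3, h4⟩
      match s, h1, h2, h3, h4 with
      | (A :: l), h1, h2, h3, h4 =>
        have h5 := last_snd l A _ h1 h4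
        simp only [List.getElem?_cons_zero, Option.some.injEq] at h2
        subst h2
        simp only at h5
        refine ⟨⟨h1, ?_, by simp, ?_⟩, h4⟩
        · rw [List.length_cons]; omega
        · rw [h3]; simp [dir]
    · rintro ⟨⟨h1, h2, h3, h4⟩, h5⟩
      refine ⟨h1, h3, ?_, h5⟩
      rw [h4]; simp [dir]
  rw [a, h1, finsum_mem_coe_finset]
  have h2 : ∑ s ∈ (pathsFrom n (0, 0) true).filter
      (fun s => s.getLast? = some (x, ((n + 1 : ℕ) : ℤ))), (-I) ^ turns s
        = (be n x : ℂ) - I * al n x := by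
    have h3 := (Z_eq n (0, 0) x ((n + 1 : ℕ) : ℤ)).1
    rw [Z] at h3
    rw [h3]
    rw [if_pos (by push_cast; ring)]
    simp
  rw [h2, mul_assoc]
  congr 1
  have I2 : I * I = -1 := I_mul_I
  linear_combination (-(al n x : ℂ)) * I2

/-- The quantity `|a₂/a|²`. -/
theorem ratio_eq (x : ℤ) (n : ℕ) :
    ‖(((a x (n + 1)).im : ℝ) : ℂ) / a x (n + 1)‖ ^ 2
      = (be n x : ℝ) ^ 2 / ((al n x : ℝ) ^ 2 + (be n x : ℝ) ^ 2) := by
  have hc : (0 : ℝ) < (2 : ℝ) ^ ((1 - ((n + 1 : ℕ) : ℝ)) / 2) := Real.rpow_pos_of_pos two_pos _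
  set c : ℝ := (2 : ℝ) ^ ((1 - ((n + 1 : ℕ) : ℝ)) / 2) with hcdef
  rw [a_eq, ← hcdef]
  have h1 : ((c : ℂ) * ((al n x : ℂ) + I * (be n x : ℂ))).im = c * (be n x : ℝ) := by
    simp [Complex.mul_im]
  have h2 : ((c : ℂ) * ((al n x : ℂ) + I * (be n x : ℂ))).re = c * (al n x : ℝ) := by
    simp [Complex.mul_re]
  rw [norm_div, div_pow, Complex.norm_real, Real.norm_eq_abs, sq_abs, ← Complex.normSq_eq_norm_sq,
    Complex.normSq_apply, h1, h2]
  have h3 : (c * (be n x : ℝ)) ^ 2 = c ^ 2 * (be n x : ℝ) ^ 2 := by ring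
  have h4 : c * (al n x : ℝ) * (c * (al n x : ℝ)) + c * (be n x : ℝ) * (c * (be n x : ℝ))
      = c ^ 2 * ((al n x : ℝ) ^ 2 + (be n x : ℝ) ^ 2) := by ring
  rw [h3, h4, mul_div_mul_left _ _ (by positivity)]

/-- The two exact recurrences in `x` at fixed `t = n + 1`. -/
theorem R12 (n : ℕ) : ∀ x : ℤ,
    ((n : ℤ) + 1 - x - 2) * be n (x + 2) = ((n : ℤ) + 1 - x) * be n x + 2 * x * al n x ∧
    ((n : ℤ) + 1 + x) * (al n (x + 2) - al n x) = - 2 * (x + 1) * be n (x + 2) := by
  induction n with
  | zero =>
    intro x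
    rw [al_zero, al_zero, be_zero, be_zero]
    constructor
    · by_cases h1 : x = -1
      · subst h1; simp
      · rw [if_neg (by omega)]
        by_cases h2 : x = 1
        · subst h2; simp
        · rw [if_neg h2]; simp
    · by_cases h1 : x = -1
      · subst h1; simp
      · rw [if_neg (by omega)]; simp
  | succ n ih =>
    intro x
    rw [al_succ, al_succ, be_succ, be_succ]
    have e1 : x + 2 - 1 = x + 1 := by ring
    have e2 : x + 2 + 1 = (x + 1) + 2 := by ring
    have e3 : x - 1 + 2 = x + 1 := by ring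
    rw [e1, e2]
    obtain ⟨h1, h2⟩ := ih (x - 1)
    obtain ⟨h3, h4⟩ := ih (x + 1)
    rw [e3] at h1 h2
    push_cast
    constructor
    · linear_combination h1 - h2
    · linear_combination h3 + h4

/-- The values at the right end. -/
theorem right_end (n : ℕ) : al n (n + 1) = 0 ∧ be n (n + 1) = 1 := by
  induction n with
  | zero => simp [al_zero, be_zero]
  | succ n ih =>
    have hb : ∀ m : ℕ, ∀ x : ℤ, (m : ℤ) + 1 < x → al m x = 0 ∧ be m x = 0 := by
      intro m
      induction m with
      | zero =>
        intro x hx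
        rw [al_zero, be_zero, if_neg (by push_cast at hx; omega)]
        simp
      | succ m ihm =>
        intro x hx
        push_cast at hx
        rw [al_succ, be_succ, (ihm (x + 1) (by omega)).1, (ihm (x + 1) (by omega)).2,
          (ihm (x - 1) (by omega)).1, (ihm (x - 1) (by omega)).2]
        simp
    rw [al_succ, be_succ]
    push_cast
    have e1 : (n : ℤ) + 1 + 1 - 1 = n + 1 := by ring
    rw [e1, ih.1, ih.2, (hb n ((n : ℤ) + 1 + 1 + 1) (by omega)).1,
      (hb n ((n : ℤ) + 1 + 1 + 1) (by omega)).2]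
    simp

theorem al_right (n : ℕ) : al (n + 1) n = 1 := by
  rw [al_succ, (right_end n).1, (right_end n).2]
  simp

end Pool.Agent.Work.MP_10800c_mp
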