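import Mathlib
import Pool.Agent.Work.MP_10800c_mp.Path

/-!
# Feynman checkers: reindexing the sum and Riemann sums
-/

namespace Pool.Agent.Work.MP_10800c_mp

open Finset Filter Topology

/-- The `j`-th summation point. -/
def pt (t j : ℕ) : ℕ := t % 2 + 2 * j

/-- The `j`-th node. -/
noncomputable def nd (t j : ℕ) : ℝ := (pt t j : ℝ) / (t : ℝ)

/-- The number of summation points. -/
noncomputable def NN (v : ℝ) (t : ℕ) : ℕ := (⌊v * t⌋₊ + 2 - t % 2) / 2

lemma lt_NN_iff {v : ℝ} (hv : 0 ≤ v) (t j : ℕ) : j < NN v t ↔ ((pt t j : ℕ) : ℝ) ≤ v * t := by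
  have h : (0 : ℝ) ≤ v * t := by positivity
  rw [← Nat.le_floor_iff h, NN, pt]
  omega

lemma nd_le_iff {v : ℝ} (hv : 0 ≤ v) {t : ℕ} (ht : 0 < t) (j : ℕ) :
    j < NN v t ↔ nd t j ≤ v := by
  rw [lt_NN_iff hv, nd, div_le_iff₀ (by exact_mod_cast ht)]

lemma nd_succ (t j : ℕ) : nd t (j + 1) = nd t j + 2 / (t : ℝ) := by
  rw [nd, nd, pt, pt]
  push_cast
  ring

lemma nd_nonneg (t j : ℕ) : 0 ≤ nd t j := by
  rw [nd]; positivity

lemma nd_zero_le (t : ℕ) : nd t 0 ≤ 1 / (t : ℝ) := by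
  rw [nd, pt]
  have h : ((t % 2 + 2 * 0 : ℕ) : ℝ) ≤ 1 := by
    have : t % 2 + 2 * 0 ≤ 1 := by omega
    exact_mod_cast this
  gcongr

lemma nd_NN_gt {v : ℝ} (hv : 0 ≤ v) {t : ℕ} (ht : 0 < t) : v < nd t (NN v t) := by
  by_contra h
  push Not at h
  rw [← nd_le_iff hv ht] at h
  exact lt_irrefl _ h

lemma nd_NN_le {v : ℝ} (hv : 0 ≤ v) {t : ℕ} (ht : 0 < t) : nd t (NN v t) ≤ v + 2 / (t : ℝ) := by
  have ht' : (0 : ℝ) < t := by exact_mod_cast ht
  rcases Nat.eq_zero_or_pos (NN v t) with h | h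
  · rw [h]
    have := nd_zero_le t
    have h2 : 1 / (t : ℝ) ≤ 2 / (t : ℝ) := by gcongr; norm_num
    linarith
  · obtain ⟨m, hm⟩ : ∃ m, NN v t = m + 1 := ⟨NN v t - 1, by omega⟩
    rw [hm, nd_succ]
    have : nd t m ≤ v := (nd_le_iff hv ht m).1 (by omega)
    linarith

lemma nd_sub (t N : ℕ) : nd t N - nd t 0 = (N : ℝ) * (2 / (t : ℝ)) := by
  rw [nd, nd, pt, pt]
  push_cast
  ring

/-- `|a₂/a|²` at the point `x` at time `t`. -/
noncomputable def gg (t : ℕ) (x : ℤ) : ℝ :=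
  (be (t - 1) x : ℝ) ^ 2 / ((al (t - 1) x : ℝ) ^ 2 + (be (t - 1) x : ℝ) ^ 2)

lemma gg_nonneg (t : ℕ) (x : ℤ) : 0 ≤ gg t x := by
  rw [gg]; positivity

lemma gg_le_one (t : ℕ) (x : ℤ) : gg t x ≤ 1 := by
  rw [gg]
  apply div_le_one_of_le₀
  · nlinarith [sq_nonneg (al (t - 1) x : ℝ)]
  · positivity

lemma S_eq {v : ℝ} (hv : 0 ≤ v) {t : ℕ} (ht : 0 < t) :
    S v t = ∑ j ∈ range (NN v t), 2 / (t : ℝ) * gg t (pt t j) := by
  rw [S]
  symm
  apply Finset.sum_bij (fun j _ => ((pt t j : ℕ) : ℤ))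
  · intro j hj
    rw [Finset.mem_range, lt_NN_iff hv] at hj
    rw [Finset.mem_filter, Finset.mem_Icc]
    refine ⟨⟨by positivity, ?_⟩, ?_⟩
    · rw [Int.le_floor]
      exact_mod_cast hj
    · rw [pt, Int.ModEq]
      push_cast
      omega
  · intro j₁ _ j₂ _ h
    simp only [pt] at h
    omega
  · intro x hx
    rw [Finset.mem_filter, Finset.mem_Icc, Int.ModEq] at hx
    obtain ⟨⟨h1, h2⟩, h3⟩ := hx
    have h4 : ((t % 2 + 2 * ((x.toNat - t % 2) / 2) : ℕ) : ℤ) = x := by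
      omega
    refine ⟨(x.toNat - t % 2) / 2, ?_, ?_⟩
    · rw [Finset.mem_range, lt_NN_iff hv, pt]
      have h5 : ((t % 2 + 2 * ((x.toNat - t % 2) / 2) : ℕ) : ℝ) = (x : ℝ) := by
        rw [← Int.cast_natCast, h4]
      rw [h5]
      exact Int.le_floor.1 h2
    · exact h4
  · intro j _
    obtain ⟨n, rfl⟩ : ∃ n, t = n + 1 := ⟨t - 1, by omega⟩
    rw [ratio_eq, gg]
    simp

/-- Riemann sums over the nodes. -/
lemma riemann_global (f : ℝ → ℝ) (hf : Continuous f) {v : ℝ} (hv : 0 ≤ v) :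
    Tendsto (fun t : ℕ => ∑ j ∈ range (NN v t), 2 / (t : ℝ) * f (nd t j)) atTop
      (𝓝 (∫ x in (0 : ℝ)..v, f x)) := by
  rw [Metric.tendsto_atTop]
  intro ε hε
  obtain ⟨M, hM⟩ := (isCompact_Icc (a := (0 : ℝ)) (b := v + 2)).exists_bound_of_continuousOn
    hf.continuousOn
  have hM0 : 0 ≤ M := (norm_nonneg _).trans (hM 0 ⟨le_rfl, by linarith⟩)
  have huc := (isCompact_Icc (a := (0 : ℝ)) (b := v + 2)).uniformContinuousOn_of_continuous
    hf.continuousOn
  rw [Metric.uniformContinuousOn_iff] at huc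
  obtain ⟨δ, hδ, huc⟩ := huc (ε / (2 * (v + 2))) (by positivity)
  obtain ⟨T, hT⟩ := exists_nat_gt (max (max (2 / δ) 2) (8 * (M + 1) / ε))
  refine ⟨T, fun t ht => ?_⟩
  have ht1 : (max (max (2 / δ) 2) (8 * (M + 1) / ε)) < (t : ℝ) :=
    lt_of_lt_of_le hT (by exact_mod_cast ht)
  have htδ : 2 / δ < (t : ℝ) := lt_of_le_of_lt ((le_max_left _ _).trans (le_max_left _ _)) ht1
  have ht2 : 2 < (t : ℝ) := lt_of_le_of_lt ((le_max_right _ _).trans (le_max_left _ _)) ht1
  have htM : 8 * (M + 1) / ε < (t : ℝ) := lt_of_le_of_lt (le_max_right _ _) ht1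
  have htpos : (0 : ℝ) < t := by linarith
  have htn : 0 < t := by exact_mod_cast htpos
  have h2t : 2 / (t : ℝ) < δ := by
    rw [div_lt_iff₀ hδ] at htδ
    rw [div_lt_iff₀ htpos]; linarith
  have h2t1 : 2 / (t : ℝ) < 1 := by rw [div_lt_one htpos]; exact ht2
  have hMt : 4 * M / (t : ℝ) < ε / 2 := by
    rw [div_lt_iff₀ hε] at htM
    rw [div_lt_iff₀ htpos]
    nlinarith
  set N := NN v t with hN
  have hndN : nd t N ≤ v + 2 / (t : ℝ) := nd_NN_le hv htn
  have hndN' : v < nd t N := nd_NN_gt hv htn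
  have hmono : ∀ i j, i ≤ j → nd t i ≤ nd t j := by
    intro i j hij
    rw [nd, nd, pt, pt]
    gcongr
  have hmem : ∀ j, j ≤ N → nd t j ∈ Set.Icc (0 : ℝ) (v + 2) := fun j hj =>
    ⟨nd_nonneg t j, by have := hmono j N hj; linarith⟩
  have hint : ∀ a b : ℝ, IntervalIntegrable f MeasureTheory.volume a b := fun a b =>
    hf.intervalIntegrable a b
  have hsum : ∑ k ∈ range N, ∫ x in (nd t k)..(nd t (k + 1)), f x = ∫ x in (nd t 0)..(nd t N), f x :=
    intervalIntegral.sum_integral_adjacent_intervals (fun k _ => hint _ _)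
  have hterm : ∀ k ∈ range N, |2 / (t : ℝ) * f (nd t k) - ∫ x in (nd t k)..(nd t (k + 1)), f x|
      ≤ ε / (2 * (v + 2)) * (2 / (t : ℝ)) := by
    intro k hk
    rw [Finset.mem_range] at hk
    have h1 : 2 / (t : ℝ) * f (nd t k) = ∫ x in (nd t k)..(nd t (k + 1)), f (nd t k) := by
      rw [intervalIntegral.integral_const, nd_succ]
      simp
    rw [h1, ← intervalIntegral.integral_sub (by simp) (hint _ _)]
    have h2 := intervalIntegral.norm_integral_le_of_norm_le_const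
      (a := nd t k) (b := nd t (k + 1)) (C := ε / (2 * (v + 2)))
      (f := fun x => f (nd t k) - f x) (by
        intro x hx
        rw [Set.uIoc_of_le (hmono k (k + 1) (by omega)), nd_succ] at hx
        have h3 := huc (nd t k) (hmem k hk.le) x
          ⟨(nd_nonneg t k).trans hx.1.le, by
            have := (hmem (k + 1) (by omega)).2
            rw [nd_succ] at this
            linarith [hx.2]⟩ (by
            rw [Real.dist_eq, abs_sub_comm, abs_of_nonneg (by linarith [hx.1])]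
            linarith [hx.2])
        rw [Real.dist_eq] at h3
        exact h3.le)
    rw [Real.norm_eq_abs] at h2
    refine h2.trans (le_of_eq ?_)
    rw [nd_succ, add_sub_cancel_left, abs_of_nonneg (by positivity)]
  have hmain : |∑ j ∈ range N, 2 / (t : ℝ) * f (nd t j) - ∫ x in (nd t 0)..(nd t N), f x|
      ≤ ε / 2 := by
    rw [← hsum, ← Finset.sum_sub_distrib]
    refine (Finset.abs_sum_le_sum_abs _ _).trans ((Finset.sum_le_sum hterm).trans ?_)
    rw [Finset.sum_const, Finset.card_range, nsmul_eq_mul]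
    have h3 : (N : ℝ) * (ε / (2 * (v + 2)) * (2 / (t : ℝ)))
        = ε / (2 * (v + 2)) * ((N : ℝ) * (2 / (t : ℝ))) := by ring
    rw [h3, ← nd_sub]
    have h4 : nd t N - nd t 0 ≤ v + 2 := by
      have := nd_nonneg t 0
      linarith
    calc ε / (2 * (v + 2)) * (nd t N - nd t 0) ≤ ε / (2 * (v + 2)) * (v + 2) := by gcongr
      _ = ε / 2 := by field_simp
  have hdiff : |(∫ x in (nd t 0)..(nd t N), f x) - ∫ x in (0 : ℝ)..v, f x| ≤ 4 * M / t := by
    have h5 : (∫ x in (nd t 0)..(nd t N), f x) - (∫ x in (0 : ℝ)..v, f x)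
        = (∫ x in v..(nd t N), f x) - ∫ x in (0 : ℝ)..(nd t 0), f x := by
      rw [← intervalIntegral.integral_interval_sub_left (hint 0 (nd t N)) (hint 0 (nd t 0)),
        ← intervalIntegral.integral_interval_sub_left (hint 0 (nd t N)) (hint 0 v)]
      ring
    rw [h5]
    have h6 : |∫ x in v..(nd t N), f x| ≤ M * (2 / (t : ℝ)) := by
      have := intervalIntegral.norm_integral_le_of_norm_le_const
        (a := v) (b := nd t N) (C := M) (f := f) (by
          intro x hx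
          rw [Set.uIoc_of_le hndN'.le] at hx
          exact hM x ⟨hv.trans hx.1.le, by linarith [hx.2]⟩)
      rw [Real.norm_eq_abs, abs_of_nonneg (by linarith : 0 ≤ nd t N - v)] at this
      refine this.trans ?_
      gcongr
      linarith
    have h7 : |∫ x in (0 : ℝ)..(nd t 0), f x| ≤ M * (1 / (t : ℝ)) := by
      have := intervalIntegral.norm_integral_le_of_norm_le_const
        (a := 0) (b := nd t 0) (C := M) (f := f) (by
          intro x hx
          rw [Set.uIoc_of_le (nd_nonneg t 0)] at hx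
          exact hM x ⟨hx.1.le, by
            have := nd_zero_le t
            have h9 : 1 / (t : ℝ) ≤ 2 / (t : ℝ) := by gcongr; norm_num
            linarith [hx.2]⟩)
      rw [Real.norm_eq_abs, sub_zero, abs_of_nonneg (nd_nonneg t 0)] at this
      refine this.trans ?_
      gcongr
      exact nd_zero_le t
    calc |(∫ x in v..(nd t N), f x) - ∫ x in (0 : ℝ)..(nd t 0), f x|
        ≤ |∫ x in v..(nd t N), f x| + |∫ x in (0 : ℝ)..(nd t 0), f x| := abs_sub _ _
      _ ≤ M * (2 / (t : ℝ)) + M * (1 / (t : ℝ)) := add_le_add h6 h7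
      _ = 3 * M / t := by ring
      _ ≤ 4 * M / t := by gcongr; norm_num
  rw [Real.dist_eq]
  have h8 : (∑ j ∈ range N, 2 / (t : ℝ) * f (nd t j)) - (∫ x in (0 : ℝ)..v, f x)
      = (∑ j ∈ range N, 2 / (t : ℝ) * f (nd t j) - ∫ x in (nd t 0)..(nd t N), f x)
        + ((∫ x in (nd t 0)..(nd t N), f x) - ∫ x in (0 : ℝ)..v, f x) := by ring
  rw [h8]
  refine (abs_add_le _ _).trans_lt ?_
  linarith

/-- Riemann sums over the nodes, for functions continuous on `[0,v]`. -/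
lemma riemann (f : ℝ → ℝ) {v : ℝ} (hv : 0 ≤ v) (hf : ContinuousOn f (Set.Icc 0 v)) :
    Tendsto (fun t : ℕ => ∑ j ∈ range (NN v t), 2 / (t : ℝ) * f (nd t j)) atTop
      (𝓝 (∫ x in (0 : ℝ)..v, f x)) := by
  have h1 : Continuous (Set.IccExtend hv ((Set.Icc 0 v).domRestrict f)) :=
    (continuousOn_iff_continuous_domRestrict.1 hf).Icc_extend'
  have h2 := riemann_global _ h1 hv
  have h3 : ∀ x ∈ Set.Icc 0 v, Set.IccExtend hv ((Set.Icc 0 v).domRestrict f) x = f x := by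
    intro x hx
    rw [Set.IccExtend_of_mem _ _ hx]
    rfl
  have h4 : (∫ x in (0 : ℝ)..v, Set.IccExtend hv ((Set.Icc 0 v).domRestrict f) x)
      = ∫ x in (0 : ℝ)..v, f x := by
    apply intervalIntegral.integral_congr
    intro x hx
    rw [Set.uIcc_of_le hv] at hx
    exact h3 x hx
  rw [h4] at h2
  refine h2.congr' ?_
  filter_upwards [eventually_gt_atTop 0] with t ht
  refine Finset.sum_congr rfl fun j hj => ?_
  rw [Finset.mem_range, nd_le_iff hv ht] at hj
  rw [h3 _ ⟨nd_nonneg t j, hj⟩]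

end Pool.Agent.Work.MP_10800c_mp
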