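import Mathlib
import Pool.Agent.Work.MP_10800c_mp.Riemann

/-!
# Feynman checkers: cancellation in slowly varying rotations
-/

namespace Pool.Agent.Work.MP_10800c_mp

open Finset Filter Topology

lemma tendsto_resonance {v : ℝ} (hv : 0 ≤ v) (ω : ℝ → ℂ) (hω : ContinuousOn ω (Set.Icc 0 v))
    (hfin : (Set.Icc 0 v ∩ ω ⁻¹' {1}).Countable) :
    Tendsto (fun n : ℕ => ∫ u in (0 : ℝ)..v,
      (1 / ((n : ℝ) + 1)) / (‖1 - ω u‖ ^ 2 + 1 / ((n : ℝ) + 1))) atTop (𝓝 0) := by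
  have hpos : ∀ n : ℕ, (0 : ℝ) < 1 / ((n : ℝ) + 1) := fun n => by positivity
  suffices h : Tendsto (fun n : ℕ => ∫ u in (0 : ℝ)..v,
      (1 / ((n : ℝ) + 1)) / (‖1 - ω u‖ ^ 2 + 1 / ((n : ℝ) + 1))) atTop
      (𝓝 (∫ u in (0 : ℝ)..v, (0 : ℝ))) by
    rwa [intervalIntegral.integral_zero] at h
  apply intervalIntegral.tendsto_integral_filter_of_dominated_convergence (fun _ => (1 : ℝ))
  · refine Eventually.of_forall fun n => ?_
    rw [Set.uIoc_of_le hv]
    have h1 : ContinuousOn (fun u => (1 / ((n : ℝ) + 1)) / (‖1 - ω u‖ ^ 2 + 1 / ((n : ℝ) + 1)))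
        (Set.Ioc 0 v) := by
      have h2 : ContinuousOn (fun u => ‖1 - ω u‖ ^ 2 + 1 / ((n : ℝ) + 1)) (Set.Ioc 0 v) :=
        (((continuousOn_const.sub (hω.mono Set.Ioc_subset_Icc_self)).norm.pow 2).add
          continuousOn_const)
      exact continuousOn_const.div h2 fun u _ => by
        have := hpos n
        have h3 : 0 ≤ ‖1 - ω u‖ ^ 2 := by positivity
        linarith
    exact h1.aestronglyMeasurable measurableSet_Ioc
  · refine Eventually.of_forall fun n => Eventually.of_forall fun u _ => ?_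
    have h3 : 0 ≤ ‖1 - ω u‖ ^ 2 := by positivity
    rw [Real.norm_of_nonneg (by have := hpos n; positivity)]
    apply div_le_one_of_le₀
    · linarith
    · have := hpos n; linarith
  · simp
  · filter_upwards [hfin.ae_notMem MeasureTheory.volume] with u hu hu'
    rw [Set.uIoc_of_le hv] at hu'
    have h1 : ω u ≠ 1 := fun h => hu ⟨Set.Ioc_subset_Icc_self hu', h⟩
    have h2 : 0 < ‖1 - ω u‖ ^ 2 := by
      have : 0 < ‖1 - ω u‖ := norm_pos_iff.2 (sub_ne_zero.2 (Ne.symm h1))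
      positivity
    have h3 : Tendsto (fun n : ℕ => 1 / ((n : ℝ) + 1)) atTop (𝓝 0) :=
      tendsto_one_div_add_atTop_nhds_zero_nat
    have h4 : Tendsto (fun n : ℕ => (1 / ((n : ℝ) + 1)) / (‖1 - ω u‖ ^ 2 + 1 / ((n : ℝ) + 1)))
        atTop (𝓝 (0 / (‖1 - ω u‖ ^ 2 + 0))) :=
      h3.div (tendsto_const_nhds.add h3) (by simpa using h2.ne')
    simpa using h4

/-- Summation by parts for a slowly varying rotation. -/
lemma weyl {v : ℝ} (hv : 0 ≤ v) (ω : ℝ → ℂ) (hω : ContinuousOn ω (Set.Icc 0 v))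
    (hfin : (Set.Icc 0 v ∩ ω ⁻¹' {1}).Countable)
    (ζ : ℕ → ℕ → ℂ) (C : ℝ) (T : ℕ)
    (h1 : ∀ t ≥ T, ∀ j < NN v t, ‖ζ t j‖ ≤ 1)
    (h2 : ∀ t ≥ T, ∀ j, j + 1 < NN v t → ‖ζ t (j + 1) - ω (nd t j) * ζ t j‖ ≤ C / (t : ℝ))
    (c : ℝ → ℂ) (hc : ContinuousOn c (Set.Icc 0 v)) :
    Tendsto (fun t : ℕ => ∑ j ∈ range (NN v t), ((2 / (t : ℝ) : ℝ) : ℂ) * (c (nd t j) * ζ t j))
      atTop (𝓝 0) := by
  rw [Metric.tendsto_atTop]
  intro ε hε
  obtain ⟨M₀, hM₀⟩ := (isCompact_Icc (a := (0 : ℝ)) (b := v)).exists_bound_of_continuousOn hc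
  set M : ℝ := max M₀ 1 with hMdef
  have hM1 : 1 ≤ M := le_max_right _ _
  have hM : ∀ x ∈ Set.Icc (0 : ℝ) v, ‖c x‖ ≤ M := fun x hx => (hM₀ x hx).trans (le_max_left _ _)
  -- choose the cut-off
  have hres := tendsto_resonance hv ω hω hfin
  have hev : ∀ᶠ n : ℕ in atTop, (∫ u in (0 : ℝ)..v,
      (1 / ((n : ℝ) + 1)) / (‖1 - ω u‖ ^ 2 + 1 / ((n : ℝ) + 1))) < ε / (4 * M) :=
    hres.eventually_lt_const (by positivity)
  obtain ⟨n, hn⟩ := hev.exists
  set η : ℝ := 1 / ((n : ℝ) + 1) with hη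
  have hηpos : 0 < η := by positivity
  have hden : ∀ u, 0 < ‖1 - ω u‖ ^ 2 + η := fun u => by positivity
  have hdenc : ContinuousOn (fun u => ‖1 - ω u‖ ^ 2 + η) (Set.Icc 0 v) :=
    ((continuousOn_const.sub hω).norm.pow 2).add continuousOn_const
  have hr : ContinuousOn (fun u => η / (‖1 - ω u‖ ^ 2 + η)) (Set.Icc 0 v) :=
    continuousOn_const.div hdenc fun u _ => (hden u).ne'
  have hriem := riemann _ hv hr
  have hev2 : ∀ᶠ t : ℕ in atTop, (∑ j ∈ range (NN v t),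
      2 / (t : ℝ) * (η / (‖1 - ω (nd t j)‖ ^ 2 + η))) < ε / (4 * M) :=
    hriem.eventually_lt_const hn
  -- the coboundary
  set d : ℝ → ℂ := fun u =>
    c u * (starRingEnd ℂ) (1 - ω u) / ((‖1 - ω u‖ ^ 2 + η : ℝ) : ℂ) with hd
  have hdc : ContinuousOn d (Set.Icc 0 v) := by
    apply ContinuousOn.div
    · exact hc.mul (Complex.continuous_conj.comp_continuousOn (continuousOn_const.sub hω))
    · exact Complex.continuous_ofReal.comp_continuousOn hdenc
    · intro u _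
      exact_mod_cast (hden u).ne'
  obtain ⟨D₀, hD₀⟩ := (isCompact_Icc (a := (0 : ℝ)) (b := v)).exists_bound_of_continuousOn hdc
  set D : ℝ := max D₀ 1 with hDdef
  have hD1 : 1 ≤ D := le_max_right _ _
  have hD : ∀ x ∈ Set.Icc (0 : ℝ) v, ‖d x‖ ≤ D := fun x hx => (hD₀ x hx).trans (le_max_left _ _)
  have huc := (isCompact_Icc (a := (0 : ℝ)) (b := v)).uniformContinuousOn_of_continuous hdc
  rw [Metric.uniformContinuousOn_iff] at huc
  obtain ⟨δ, hδ, huc⟩ := huc (ε / (4 * (v + 1))) (by positivity)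
  have hsplit : ∀ u, c u = d u * (1 - ω u) + c u * ((η / (‖1 - ω u‖ ^ 2 + η) : ℝ) : ℂ) := by
    intro u
    have h5 : ((‖1 - ω u‖ ^ 2 + η : ℝ) : ℂ) ≠ 0 := by exact_mod_cast (hden u).ne'
    have h6 : (1 - ω u) * (starRingEnd ℂ) (1 - ω u) = ((‖1 - ω u‖ ^ 2 : ℝ) : ℂ) := by
      rw [Complex.mul_conj']; push_cast; ring
    rw [hd]
    simp only
    rw [Complex.ofReal_div, eq_comm]
    have h7 : c u * (starRingEnd ℂ) (1 - ω u) / ((‖1 - ω u‖ ^ 2 + η : ℝ) : ℂ) * (1 - ω u)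
        = c u * ((1 - ω u) * (starRingEnd ℂ) (1 - ω u)) / ((‖1 - ω u‖ ^ 2 + η : ℝ) : ℂ) := by
      ring
    rw [h7, h6, ← mul_div_assoc, ← add_div, ← mul_add, ← Complex.ofReal_add,
      mul_div_assoc, div_self h5, mul_one]
  obtain ⟨T₁, hT₁⟩ := exists_nat_gt (max (2 / δ) (4 * (4 * D + 2 * M + v * D * |C|) / ε))
  obtain ⟨T₂, hT₂⟩ := eventually_atTop.1 hev2
  refine ⟨max (max T₁ T₂) (max T 1), fun t ht => ?_⟩
  have ht1 : T₁ ≤ t := le_trans (le_max_left _ _) (le_trans (le_max_left _ _) ht)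
  have ht2 : T₂ ≤ t := le_trans (le_max_right _ _) (le_trans (le_max_left _ _) ht)
  have ht3 : T ≤ t := le_trans (le_max_left _ _) (le_trans (le_max_right _ _) ht)
  have ht4 : 1 ≤ t := le_trans (le_max_right _ _) (le_trans (le_max_right _ _) ht)
  have htpos : (0 : ℝ) < t := by exact_mod_cast ht4
  have htT : (max (2 / δ) (4 * (4 * D + 2 * M + v * D * |C|) / ε)) < (t : ℝ) :=
    lt_of_lt_of_le hT₁ (by exact_mod_cast ht1)
  have h2t : 2 / (t : ℝ) < δ := by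
    have := lt_of_le_of_lt (le_max_left _ _) htT
    rw [div_lt_iff₀ hδ] at this
    rw [div_lt_iff₀ htpos]; linarith
  have hbig : (4 * D + 2 * M + v * D * |C|) / (t : ℝ) < ε / 4 := by
    have := lt_of_le_of_lt (le_max_right _ _) htT
    rw [div_lt_iff₀ hε] at this
    rw [div_lt_iff₀ htpos]; linarith
  have hmem : ∀ j < NN v t, nd t j ∈ Set.Icc (0 : ℝ) v := fun j hj =>
    ⟨nd_nonneg t j, (nd_le_iff hv ht4 j).1 hj⟩
  rw [dist_zero_right]
  have hsum : ∑ j ∈ range (NN v t), ((2 / (t : ℝ) : ℝ) : ℂ) * (c (nd t j) * ζ t j)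
      = ((2 / (t : ℝ) : ℝ) : ℂ) * ∑ j ∈ range (NN v t), d (nd t j) * (1 - ω (nd t j)) * ζ t j
        + ∑ j ∈ range (NN v t), ((2 / (t : ℝ) : ℝ) : ℂ) *
          (c (nd t j) * ((η / (‖1 - ω (nd t j)‖ ^ 2 + η) : ℝ) : ℂ) * ζ t j) := by
    rw [Finset.mul_sum, ← Finset.sum_add_distrib]
    refine Finset.sum_congr rfl fun j _ => ?_
    conv_lhs => rw [hsplit (nd t j)]
    ring
  rw [hsum]
  have hsecond : ‖∑ j ∈ range (NN v t), ((2 / (t : ℝ) : ℝ) : ℂ) *
      (c (nd t j) * ((η / (‖1 - ω (nd t j)‖ ^ 2 + η) : ℝ) : ℂ) * ζ t j)‖ ≤ ε / 4 := by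
    have h5 : ‖∑ j ∈ range (NN v t), ((2 / (t : ℝ) : ℝ) : ℂ) *
      (c (nd t j) * ((η / (‖1 - ω (nd t j)‖ ^ 2 + η) : ℝ) : ℂ) * ζ t j)‖
        ≤ ∑ j ∈ range (NN v t), M * (2 / (t : ℝ) * (η / (‖1 - ω (nd t j)‖ ^ 2 + η))) := by
      refine norm_sum_le_of_le _ fun j hj => ?_
      rw [Finset.mem_range] at hj
      have hq : 0 ≤ η / (‖1 - ω (nd t j)‖ ^ 2 + η) := by
        have := hden (nd t j); positivity
      rw [norm_mul, norm_mul, norm_mul, Complex.norm_real, Complex.norm_real,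
        Real.norm_of_nonneg hq, Real.norm_of_nonneg (by positivity)]
      have h6 := hM _ (hmem j hj)
      have h7 := h1 t ht3 j hj
      calc 2 / (t : ℝ) * (‖c (nd t j)‖ * (η / (‖1 - ω (nd t j)‖ ^ 2 + η)) * ‖ζ t j‖)
          ≤ 2 / (t : ℝ) * (M * (η / (‖1 - ω (nd t j)‖ ^ 2 + η)) * 1) := by gcongr
        _ = M * (2 / (t : ℝ) * (η / (‖1 - ω (nd t j)‖ ^ 2 + η))) := by ring
    refine h5.trans ?_
    rw [← Finset.mul_sum]
    have h8 := (hT₂ t ht2).le
    calc M * _ ≤ M * (ε / (4 * M)) := by gcongr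
      _ = ε / 4 := by field_simp
  have hfirst : ‖((2 / (t : ℝ) : ℝ) : ℂ) *
      ∑ j ∈ range (NN v t), d (nd t j) * (1 - ω (nd t j)) * ζ t j‖ ≤ ε / 2 := by
    rcases Nat.eq_zero_or_pos (NN v t) with h0 | hpos
    · rw [h0]; simp; positivity
    obtain ⟨m, hm⟩ : ∃ m, NN v t = m + 1 := ⟨NN v t - 1, by omega⟩
    rw [hm, Finset.sum_range_succ]
    have h5 : ∑ j ∈ range m, d (nd t j) * (1 - ω (nd t j)) * ζ t j
        = ∑ j ∈ range m, (d (nd t j) * ζ t j - d (nd t (j + 1)) * ζ t (j + 1))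
          + ∑ j ∈ range m, ((d (nd t (j + 1)) - d (nd t j)) * ζ t (j + 1)
            + d (nd t j) * (ζ t (j + 1) - ω (nd t j) * ζ t j)) := by
      rw [← Finset.sum_add_distrib]
      refine Finset.sum_congr rfl fun j _ => ?_
      ring
    have hmv : (m : ℝ) * (2 / (t : ℝ)) ≤ v := by
      rw [← nd_sub]
      have h6 := (hmem m (by omega)).2
      have h7 := nd_nonneg t 0
      linarith
    have h6 : ‖∑ j ∈ range m, (d (nd t j) * ζ t j - d (nd t (j + 1)) * ζ t (j + 1))‖ ≤ 2 * D := by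
      rw [Finset.sum_range_sub' (fun j => d (nd t j) * ζ t j)]
      refine (norm_sub_le _ _).trans ?_
      rw [norm_mul, norm_mul]
      have ha := hD _ (hmem 0 (by omega))
      have hb := hD _ (hmem m (by omega))
      have hc' := h1 t ht3 0 (by omega)
      have hd' := h1 t ht3 m (by omega)
      calc ‖d (nd t 0)‖ * ‖ζ t 0‖ + ‖d (nd t m)‖ * ‖ζ t m‖ ≤ D * 1 + D * 1 := by gcongr
        _ = 2 * D := by ring
    have h7 : ‖∑ j ∈ range m, ((d (nd t (j + 1)) - d (nd t j)) * ζ t (j + 1)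
            + d (nd t j) * (ζ t (j + 1) - ω (nd t j) * ζ t j))‖
          ≤ (m : ℝ) * (ε / (4 * (v + 1)) + D * (|C| / (t : ℝ))) := by
      have h8 : ‖∑ j ∈ range m, ((d (nd t (j + 1)) - d (nd t j)) * ζ t (j + 1)
            + d (nd t j) * (ζ t (j + 1) - ω (nd t j) * ζ t j))‖
          ≤ ∑ j ∈ range m, (ε / (4 * (v + 1)) + D * (|C| / (t : ℝ))) := by
        refine norm_sum_le_of_le _ fun j hj => ?_
        rw [Finset.mem_range] at hj
        refine (norm_add_le _ _).trans ?_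
        rw [norm_mul, norm_mul]
        have ha := huc _ (hmem (j + 1) (by omega)) _ (hmem j (by omega)) (by
          rw [nd_succ, Real.dist_eq, add_sub_cancel_left, abs_of_nonneg (by positivity)]
          exact h2t)
        rw [dist_eq_norm] at ha
        have hb := h1 t ht3 (j + 1) (by omega)
        have hc' := hD _ (hmem j (by omega))
        have hd' := (h2 t ht3 j (by omega)).trans
          (div_le_div_of_nonneg_right (le_abs_self C) htpos.le)
        calc ‖d (nd t (j + 1)) - d (nd t j)‖ * ‖ζ t (j + 1)‖ +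
              ‖d (nd t j)‖ * ‖ζ t (j + 1) - ω (nd t j) * ζ t j‖
            ≤ (ε / (4 * (v + 1))) * 1 + D * (|C| / (t : ℝ)) := by gcongr
          _ = ε / (4 * (v + 1)) + D * (|C| / (t : ℝ)) := by ring
      rw [Finset.sum_const, Finset.card_range, nsmul_eq_mul] at h8
      exact h8
    have h8 : ‖d (nd t m) * (1 - ω (nd t m)) * ζ t m‖ ≤ M := by
      have ha := hM _ (hmem m (by omega))
      have hb := h1 t ht3 m (by omega)
      have h9 : ‖d (nd t m) * (1 - ω (nd t m))‖ ≤ ‖c (nd t m)‖ := by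
        rw [hd]
        simp only
        have h10 : c (nd t m) * (starRingEnd ℂ) (1 - ω (nd t m)) /
            ((‖1 - ω (nd t m)‖ ^ 2 + η : ℝ) : ℂ) * (1 - ω (nd t m))
              = c (nd t m) * (((1 - ω (nd t m)) * (starRingEnd ℂ) (1 - ω (nd t m))) /
            ((‖1 - ω (nd t m)‖ ^ 2 + η : ℝ) : ℂ)) := by ring
        rw [h10, norm_mul, norm_div, norm_mul, Complex.norm_conj, Complex.norm_real,
          Real.norm_of_nonneg (hden _).le]
        have h11 : ‖1 - ω (nd t m)‖ * ‖1 - ω (nd t m)‖ / (‖1 - ω (nd t m)‖ ^ 2 + η) ≤ 1 := by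
          apply div_le_one_of_le₀
          · rw [← sq]; linarith
          · exact (hden _).le
        calc ‖c (nd t m)‖ * (‖1 - ω (nd t m)‖ * ‖1 - ω (nd t m)‖ / (‖1 - ω (nd t m)‖ ^ 2 + η))
            ≤ ‖c (nd t m)‖ * 1 := by gcongr
          _ = ‖c (nd t m)‖ := by ring
      rw [norm_mul]
      calc ‖d (nd t m) * (1 - ω (nd t m))‖ * ‖ζ t m‖ ≤ M * 1 := by
            gcongr
            exact h9.trans ha
        _ = M := by ring
    rw [norm_mul, Complex.norm_real, Real.norm_of_nonneg (by positivity), h5]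
    have h12 : ‖(∑ j ∈ range m, (d (nd t j) * ζ t j - d (nd t (j + 1)) * ζ t (j + 1)))
          + (∑ j ∈ range m, ((d (nd t (j + 1)) - d (nd t j)) * ζ t (j + 1)
            + d (nd t j) * (ζ t (j + 1) - ω (nd t j) * ζ t j)))
          + d (nd t m) * (1 - ω (nd t m)) * ζ t m‖
        ≤ 2 * D + (m : ℝ) * (ε / (4 * (v + 1)) + D * (|C| / (t : ℝ))) + M := by
      refine (norm_add_le _ _).trans (add_le_add ((norm_add_le _ _).trans (add_le_add h6 h7)) h8)
    calc 2 / (t : ℝ) * _ ≤ 2 / (t : ℝ) *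
          (2 * D + (m : ℝ) * (ε / (4 * (v + 1)) + D * (|C| / (t : ℝ))) + M) := by gcongr
      _ = (4 * D + 2 * M) / (t : ℝ) + ((m : ℝ) * (2 / (t : ℝ))) * (ε / (4 * (v + 1)))
            + ((m : ℝ) * (2 / (t : ℝ))) * (D * |C|) / (t : ℝ) := by ring
      _ ≤ (4 * D + 2 * M) / (t : ℝ) + v * (ε / (4 * (v + 1))) + v * (D * |C|) / (t : ℝ) := by
          have : 0 ≤ D * |C| := by positivity
          gcongr
      _ = (4 * D + 2 * M + v * D * |C|) / (t : ℝ) + v * (ε / (4 * (v + 1))) := by ring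
      _ ≤ ε / 4 + ε / 4 := by
          refine add_le_add hbig.le ?_
          rw [mul_div_assoc', div_le_div_iff₀ (by positivity) (by norm_num)]
          nlinarith
      _ = ε / 2 := by ring
  calc _ ≤ ε / 2 + ε / 4 := (norm_add_le _ _).trans (add_le_add hfirst hsecond)
    _ < ε := by linarith

end Pool.Agent.Work.MP_10800c_mp
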