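import Mathlib
import Pool.Agent.Work.MP_10800c_mp.Weyl

/-!
# Feynman checkers: the elliptic region
-/

namespace Pool.Agent.Work.MP_10800c_mp

open Finset Filter Topology Complex

/-- `α` at the `j`-th node. -/
noncomputable def aa (t j : ℕ) : ℝ := (al (t - 1) (pt t j) : ℝ)

/-- `(1-u) β` at the `j`-th node. -/
noncomputable def bb (t j : ℕ) : ℝ := (1 - nd t j) * (be (t - 1) (pt t j) : ℝ)

/-- The exact coefficient. -/
noncomputable def kap (t j : ℕ) : ℝ :=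
  2 * (nd t j + 1 / (t : ℝ)) / ((1 + nd t j) * (1 - nd t (j + 1)))

lemma pt_succ (t j : ℕ) : ((pt t (j + 1) : ℕ) : ℤ) = (pt t j : ℤ) + 2 := by
  rw [pt, pt]; push_cast; ring

lemma bb_succ {t : ℕ} (ht : 0 < t) (j : ℕ) :
    bb t (j + 1) = bb t j + 2 * nd t j * aa t j := by
  obtain ⟨n, rfl⟩ : ∃ n, t = n + 1 := ⟨t - 1, by omega⟩
  have htpos : (0 : ℝ) < ((n + 1 : ℕ) : ℝ) := by positivity
  have h1 := (R12 n (pt (n + 1) j)).1
  rw [← pt_succ] at h1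
  have h2 : (((n : ℝ) + 1) - (pt (n + 1) j : ℝ) - 2) * (be n (pt (n + 1) (j + 1)) : ℝ)
      = (((n : ℝ) + 1) - (pt (n + 1) j : ℝ)) * (be n (pt (n + 1) j) : ℝ)
        + 2 * (pt (n + 1) j : ℝ) * (al n (pt (n + 1) j) : ℝ) := by
    exact_mod_cast h1
  rw [bb, bb, aa, nd_succ, nd]
  simp only [Nat.add_sub_cancel]
  have h3 : ((n + 1 : ℕ) : ℝ) ≠ 0 := htpos.ne'
  field_simp
  push_cast at *
  linear_combination h2

lemma aa_succ {t : ℕ} (ht : 0 < t) (j : ℕ) (hj : nd t (j + 1) < 1) :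
    aa t (j + 1) = aa t j - kap t j * bb t (j + 1) := by
  obtain ⟨n, rfl⟩ : ∃ n, t = n + 1 := ⟨t - 1, by omega⟩
  have htpos : (0 : ℝ) < ((n + 1 : ℕ) : ℝ) := by positivity
  have h1 := (R12 n (pt (n + 1) j)).2
  rw [← pt_succ] at h1
  have h2 : (((n : ℝ) + 1) + (pt (n + 1) j : ℝ)) * ((al n (pt (n + 1) (j + 1)) : ℝ) -
      (al n (pt (n + 1) j) : ℝ))
      = - 2 * ((pt (n + 1) j : ℝ) + 1) * (be n (pt (n + 1) (j + 1)) : ℝ) := by
    exact_mod_cast h1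
  have h4 : 1 - nd (n + 1) (j + 1) ≠ 0 := by linarith
  have h5 : (1 + nd (n + 1) j) ≠ 0 := by have := nd_nonneg (n + 1) j; linarith
  rw [kap, bb, aa, aa]
  simp only [Nat.add_sub_cancel]
  have h6 : 2 * (nd (n + 1) j + 1 / ((n + 1 : ℕ) : ℝ)) / ((1 + nd (n + 1) j) * (1 - nd (n + 1) (j + 1)))
      * ((1 - nd (n + 1) (j + 1)) * (be n (pt (n + 1) (j + 1)) : ℝ))
      = 2 * (nd (n + 1) j + 1 / ((n + 1 : ℕ) : ℝ)) / (1 + nd (n + 1) j) *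
        (be n (pt (n + 1) (j + 1)) : ℝ) := by
    field_simp
  rw [h6]
  have h7 : nd (n + 1) j = (pt (n + 1) j : ℝ) / ((n + 1 : ℕ) : ℝ) := rfl
  rw [h7] at h5 ⊢
  have h8 : ((n + 1 : ℕ) : ℝ) + (pt (n + 1) j : ℝ) ≠ 0 := by positivity
  have h9 : 2 * ((pt (n + 1) j : ℝ) / ((n + 1 : ℕ) : ℝ) + 1 / ((n + 1 : ℕ) : ℝ))
      / (1 + (pt (n + 1) j : ℝ) / ((n + 1 : ℕ) : ℝ))
      = 2 * ((pt (n + 1) j : ℝ) + 1) / (((n + 1 : ℕ) : ℝ) + (pt (n + 1) j : ℝ)) := by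
    field_simp
  rw [h9, div_mul_eq_mul_div, eq_sub_iff_add_eq, ← eq_sub_iff_add_eq', div_eq_iff h8]
  push_cast
  linear_combination h2

lemma not_both_zero (n : ℕ) (m : ℕ) : ∀ x : ℤ, x = (n : ℤ) - 2 * m → -(n : ℤ) - 2 < x →
    ¬ (al (n + 1) x = 0 ∧ be (n + 1) x = 0) := by
  induction m with
  | zero =>
    intro x hx _ h
    have h1 := al_right n
    rw [show x = (n : ℤ) by rw [hx]; push_cast; ring] at h
    omega
  | succ m ih =>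
    intro x hx hx' h
    refine ih (x + 2) (by rw [hx]; push_cast; ring) (by omega) ?_
    obtain ⟨h1, h2⟩ := R12 (n + 1) x
    rw [h.1, h.2] at h1
    rw [h.1] at h2
    have h3 : be (n + 1) (x + 2) = 0 := by
      have h4 : (((n + 1 : ℕ) : ℤ) + 1 - x - 2) * be (n + 1) (x + 2) = 0 := by
        rw [h1]; ring
      rcases mul_eq_zero.1 h4 with h5 | h5
      · push_cast at h5 hx; omega
      · exact h5
    refine ⟨?_, h3⟩
    rw [h3] at h2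
    have h4 : (((n + 1 : ℕ) : ℤ) + 1 + x) * al (n + 1) (x + 2) = 0 := by
      rw [sub_zero] at h2; rw [h2]; ring
    rcases mul_eq_zero.1 h4 with h5 | h5
    · push_cast at h5; omega
    · exact h5

lemma ab_ne {t : ℕ} (ht : 2 ≤ t) (j : ℕ) (hj : pt t j < t) :
    0 < (al (t - 1) (pt t j) : ℝ) ^ 2 + (be (t - 1) (pt t j) : ℝ) ^ 2 := by
  obtain ⟨n, rfl⟩ : ∃ n, t = n + 2 := ⟨t - 2, by omega⟩
  have h0 : pt (n + 2) j ≤ n := by
    rw [pt] at hj ⊢; omega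
  have h1 := not_both_zero n ((n - pt (n + 2) j) / 2) (pt (n + 2) j)
    (by rw [pt] at h0 ⊢; push_cast; omega) (by omega)
  have e : n + 2 - 1 = n + 1 := rfl
  rw [e]
  by_contra h
  apply h1
  have h2 : (al (n + 1) (pt (n + 2) j) : ℝ) ^ 2 = 0 := by
    nlinarith [sq_nonneg (al (n + 1) (pt (n + 2) j) : ℝ), sq_nonneg (be (n + 1) (pt (n + 2) j) : ℝ)]
  have h3 : (be (n + 1) (pt (n + 2) j) : ℝ) ^ 2 = 0 := by
    nlinarith [sq_nonneg (al (n + 1) (pt (n + 2) j) : ℝ), sq_nonneg (be (n + 1) (pt (n + 2) j) : ℝ)]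
  constructor
  · exact_mod_cast pow_eq_zero_iff (two_ne_zero) |>.1 h2
  · exact_mod_cast pow_eq_zero_iff (two_ne_zero) |>.1 h3

/-- `q(u) = √(1-2u²)`. -/
noncomputable def qq (u : ℝ) : ℝ := √(1 - 2 * u ^ 2)

lemma qq_continuous : Continuous qq := by
  unfold qq; fun_prop

/-- `μ(u) = u - i q(u)`. -/
noncomputable def mu (u : ℝ) : ℂ := (u : ℂ) - I * (qq u : ℂ)

/-- The multiplier. -/
noncomputable def lam (u : ℝ) : ℂ := 1 - ((2 * u / (1 - u ^ 2) : ℝ) : ℂ) * mu u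

/-- The complex coordinate. -/
noncomputable def ww (t j : ℕ) : ℂ := (bb t j : ℂ) + mu (nd t j) * (aa t j : ℂ)

lemma qq_sq {u : ℝ} (hu : 2 * u ^ 2 ≤ 1) : qq u ^ 2 = 1 - 2 * u ^ 2 := by
  rw [qq, Real.sq_sqrt (by linarith)]

lemma lam_re (u : ℝ) : (lam u).re = 1 - 2 * u / (1 - u ^ 2) * u := by
  rw [lam, mu, Complex.sub_re, Complex.re_ofReal_mul]
  simp

lemma lam_im (u : ℝ) : (lam u).im = 2 * u / (1 - u ^ 2) * qq u := by
  rw [lam, mu, Complex.sub_im, Complex.im_ofReal_mul]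
  simp

lemma norm_lam {u : ℝ} (hu : 2 * u ^ 2 ≤ 1) : ‖lam u‖ = 1 := by
  have h1 : (1 - u ^ 2) ≠ 0 := by nlinarith
  have h2 : ‖lam u‖ ^ 2 = 1 := by
    rw [← Complex.normSq_eq_norm_sq, Complex.normSq_apply, lam_re, lam_im]
    have h3 : (1 - 2 * u / (1 - u ^ 2) * u) * (1 - 2 * u / (1 - u ^ 2) * u)
        + 2 * u / (1 - u ^ 2) * qq u * (2 * u / (1 - u ^ 2) * qq u)
        = ((1 - 3 * u ^ 2) ^ 2 + 4 * u ^ 2 * (qq u) ^ 2) / (1 - u ^ 2) ^ 2 := by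
      field_simp
      ring
    rw [h3, qq_sq hu, div_eq_one_iff_eq (by positivity)]
    ring
  nlinarith [norm_nonneg (lam u)]

/-- The exact one step identity. -/
lemma ww_step {t : ℕ} (ht : 0 < t) (j : ℕ) (hj : nd t (j + 1) < 1)
    (hu : 2 * (nd t j) ^ 2 ≤ 1) :
    ww t (j + 1) - lam (nd t j) * ww t j
      = (mu (nd t (j + 1)) - mu (nd t j)) * (aa t (j + 1) : ℂ)
        - mu (nd t j) * ((kap t j - 2 * nd t j / (1 - nd t j ^ 2) : ℝ) : ℂ) * (bb t (j + 1) : ℂ) := by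
  have h1 : (aa t (j + 1) : ℂ) = (aa t j : ℂ) - (kap t j : ℂ) * (bb t (j + 1) : ℂ) := by
    exact_mod_cast congrArg (fun r : ℝ => (r : ℂ)) (aa_succ ht j hj)
  have h2 : (bb t (j + 1) : ℂ) = (bb t j : ℂ) + 2 * (nd t j : ℂ) * (aa t j : ℂ) := by
    exact_mod_cast congrArg (fun r : ℝ => (r : ℂ)) (bb_succ ht j)
  have h3 : ((qq (nd t j) : ℝ) : ℂ) ^ 2 = 1 - 2 * (nd t j : ℂ) ^ 2 := by
    exact_mod_cast congrArg (fun r : ℝ => (r : ℂ)) (qq_sq hu)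
  have h4 : mu (nd t j) ^ 2 = 2 * (nd t j : ℂ) * mu (nd t j) - (1 - (nd t j : ℂ) ^ 2) := by
    rw [mu]
    linear_combination I ^ 2 * h3 + (1 - 2 * (nd t j : ℂ) ^ 2) * I_sq
  have h5 : (1 - (nd t j : ℂ) ^ 2) ≠ 0 := by
    have : (1 - (nd t j) ^ 2) ≠ 0 := by nlinarith
    exact_mod_cast this
  have h6 : ((2 * nd t j / (1 - nd t j ^ 2) : ℝ) : ℂ) * (1 - (nd t j : ℂ) ^ 2)
      = 2 * (nd t j : ℂ) := by
    push_cast
    field_simp
  rw [ww, ww, lam]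
  set K : ℂ := ((2 * nd t j / (1 - nd t j ^ 2) : ℝ) : ℂ) with hK
  have h7 : ((kap t j - 2 * nd t j / (1 - nd t j ^ 2) : ℝ) : ℂ) = (kap t j : ℂ) - K := by
    rw [hK]; push_cast; ring
  rw [h7, h1, h2]
  linear_combination (K * (aa t j : ℂ)) * h4 - (aa t j : ℂ) * h6

end Pool.Agent.Work.MP_10800c_mp
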