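import Mathlib
import Pool.Agent.Work.MP_10800c_mp.Elliptic

/-!
# Feynman checkers: the elliptic region, estimates
-/

namespace Pool.Agent.Work.MP_10800c_mp

open Finset Filter Topology Complex

lemma qq_le_one (u : ℝ) : qq u ≤ 1 := by
  rw [qq]
  apply Real.sqrt_le_iff.2 ⟨by norm_num, by nlinarith [sq_nonneg u]⟩

lemma qq_nonneg (u : ℝ) : 0 ≤ qq u := Real.sqrt_nonneg _

lemma qq_anti {u v : ℝ} (hu : 0 ≤ u) (huv : u ≤ v) : qq v ≤ qq u := by
  apply Real.sqrt_le_sqrt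
  nlinarith

lemma qq_pos {v : ℝ} (hv : 2 * v ^ 2 < 1) : 0 < qq v := Real.sqrt_pos.2 (by linarith)

lemma ww_im (t j : ℕ) : (ww t j).im = -(qq (nd t j) * aa t j) := by
  simp [ww, mu]

lemma ww_re (t j : ℕ) : (ww t j).re = bb t j + nd t j * aa t j := by
  simp [ww, mu]

lemma ww_bounds {v : ℝ} (hv2 : 2 * v ^ 2 < 1) (t j : ℕ) (hj : nd t j ≤ v) :
    |aa t j| ≤ ‖ww t j‖ / qq v ∧ |bb t j| ≤ ‖ww t j‖ * (1 + 1 / qq v) := by
  have hu0 := nd_nonneg t j
  have hQ := qq_pos hv2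
  have h1 : |aa t j| ≤ ‖ww t j‖ / qq v := by
    rw [le_div_iff₀ hQ]
    have h2 := Complex.abs_im_le_norm (ww t j)
    rw [ww_im, abs_neg, abs_mul, abs_of_nonneg (qq_nonneg _)] at h2
    have h3 := qq_anti hu0 hj
    nlinarith [abs_nonneg (aa t j)]
  refine ⟨h1, ?_⟩
  have h2 := Complex.abs_re_le_norm (ww t j)
  rw [ww_re] at h2
  have h3 : |bb t j| ≤ |bb t j + nd t j * aa t j| + |nd t j * aa t j| := by
    have := abs_sub (bb t j + nd t j * aa t j) (nd t j * aa t j)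
    rwa [add_sub_cancel_right] at this
  have h4 : |nd t j * aa t j| ≤ |aa t j| := by
    rw [abs_mul, abs_of_nonneg hu0]
    have : nd t j ≤ 1 := by nlinarith
    nlinarith [abs_nonneg (aa t j)]
  calc |bb t j| ≤ ‖ww t j‖ + ‖ww t j‖ / qq v := by linarith
    _ = ‖ww t j‖ * (1 + 1 / qq v) := by ring

lemma mu_lip {v : ℝ} (hv2 : 2 * v ^ 2 < 1) {u u' : ℝ} (hu : 0 ≤ u) (huu' : u ≤ u')
    (hu' : u' ≤ v) : ‖mu u' - mu u‖ ≤ (1 + 2 / qq v) * (u' - u) := by
  have hQ := qq_pos hv2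
  have h1 : mu u' - mu u = ((u' - u : ℝ) : ℂ) - I * ((qq u' - qq u : ℝ) : ℂ) := by
    rw [mu, mu]; push_cast; ring
  rw [h1]
  refine (norm_sub_le _ _).trans ?_
  rw [norm_mul, Complex.norm_I, one_mul, Complex.norm_real, Complex.norm_real, Real.norm_eq_abs,
    Real.norm_eq_abs, abs_of_nonneg (by linarith)]
  have hv0 : u' ≤ 1 := by nlinarith
  have h2 : |qq u' - qq u| ≤ 2 / qq v * (u' - u) := by
    have h3 : qq u' ≤ qq u := qq_anti hu huu'
    have h4 : qq v ≤ qq u' := qq_anti (hu.trans huu') hu'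
    rw [abs_sub_comm, abs_of_nonneg (by linarith)]
    have h5 : (qq u - qq u') * (qq u + qq u') = 2 * (u' - u) * (u + u') := by
      have h6 := qq_sq (u := u) (by nlinarith)
      have h7 := qq_sq (u := u') (by nlinarith)
      linear_combination h6 - h7
    rw [div_mul_eq_mul_div, le_div_iff₀ hQ]
    have h8 : (qq u - qq u') * (2 * qq v) ≤ (qq u - qq u') * (qq u + qq u') := by
      apply mul_le_mul_of_nonneg_left _ (by linarith)
      linarith
    nlinarith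
  linarith

lemma mu_norm_le {u : ℝ} (hu : 0 ≤ u) (hu1 : u ≤ 1) : ‖mu u‖ ≤ 2 := by
  rw [mu]
  refine (norm_sub_le _ _).trans ?_
  rw [norm_mul, Complex.norm_I, one_mul, Complex.norm_real, Complex.norm_real, Real.norm_eq_abs,
    Real.norm_eq_abs, abs_of_nonneg hu, abs_of_nonneg (qq_nonneg _)]
  have := qq_le_one u
  linarith

lemma kap_bound {v : ℝ} (hv1 : v < 1) {t : ℕ} (ht : 0 < t) (j : ℕ) (hj : nd t (j + 1) ≤ v) :
    0 ≤ kap t j - 2 * nd t j / (1 - nd t j ^ 2) ∧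
    kap t j - 2 * nd t j / (1 - nd t j ^ 2) ≤ (2 / (1 - v) ^ 2) / (t : ℝ) := by
  have htpos : (0 : ℝ) < t := by exact_mod_cast ht
  have hu0 := nd_nonneg t j
  have hu' : nd t j < nd t (j + 1) := by
    rw [nd_succ]; have : 0 < 2 / (t : ℝ) := by positivity
    linarith
  have h1 : 0 < 1 - nd t j := by linarith
  have h2 : 0 < 1 - nd t (j + 1) := by linarith
  have h3 : kap t j - 2 * nd t j / (1 - nd t j ^ 2)
      = 2 / ((1 - nd t j) * (1 - nd t (j + 1))) / (t : ℝ) := by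
    have h4 : 1 + nd t j ≠ 0 := by linarith
    have h5 : 1 - nd t j ^ 2 ≠ 0 := by nlinarith
    have h6 : 1 - nd t j ^ 2 = (1 - nd t j) * (1 + nd t j) := by ring
    rw [h6, kap]
    have h7 : 1 / (t : ℝ) = (nd t (j + 1) - nd t j) / 2 := by rw [nd_succ]; ring
    have h8 : 2 / ((1 - nd t j) * (1 - nd t (j + 1))) / (t : ℝ)
      = 2 / ((1 - nd t j) * (1 - nd t (j + 1))) * ((nd t (j + 1) - nd t j) / 2) := by
      rw [← h7]; ring
    rw [h7, h8]
    have h9 := h1.ne'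
    have h10 := h2.ne'
    field_simp
    ring
  rw [h3]
  constructor
  · positivity
  · gcongr
    rw [sq]
    gcongr
    linarith

/-- One step bound. -/
lemma ww_step_bound {v : ℝ} (hv : 0 ≤ v) (hv2 : 2 * v ^ 2 < 1) :
    ∃ C : ℝ, 0 ≤ C ∧ ∀ t : ℕ, 0 < t → ∀ j, nd t (j + 1) ≤ v →
      ‖ww t (j + 1) - lam (nd t j) * ww t j‖ ≤ C / (t : ℝ) * ‖ww t j‖ := by
  have hQ := qq_pos hv2
  have hv1 : v < 1 := by nlinarith
  set c₀ : ℝ := 2 / (1 - v) ^ 2 with hc₀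
  have hc₀pos : 0 < c₀ := by
    have : 0 < 1 - v := by linarith
    positivity
  set Q := qq v with hQdef
  refine ⟨(1 + 2 / Q) * 2 * (1 / Q + (4 + c₀) * (1 + 3 / Q)) + 2 * c₀ * (1 + 3 / Q),
    by positivity, ?_⟩
  intro t ht j hj
  have htpos : (0 : ℝ) < t := by exact_mod_cast ht
  have hu0 := nd_nonneg t j
  have hu' : nd t j < nd t (j + 1) := by
    rw [nd_succ]; have : 0 < 2 / (t : ℝ) := by positivity
    linarith
  have hjv : nd t j ≤ v := by linarith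
  obtain ⟨ha, hb⟩ := ww_bounds hv2 t j hjv
  rw [← hQdef] at ha hb
  set W := ‖ww t j‖ with hW
  have hW0 : 0 ≤ W := norm_nonneg _
  have hb' : |bb t (j + 1)| ≤ W * (1 + 3 / Q) := by
    rw [bb_succ ht]
    have h1 : |2 * nd t j * aa t j| ≤ 2 * (W / Q) := by
      rw [abs_mul, abs_of_nonneg (by positivity)]
      have h2 : 2 * nd t j ≤ 2 := by linarith
      exact mul_le_mul h2 ha (abs_nonneg _) (by norm_num)
    calc |bb t j + 2 * nd t j * aa t j| ≤ |bb t j| + |2 * nd t j * aa t j| := abs_add_le _ _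
      _ ≤ W * (1 + 1 / Q) + 2 * (W / Q) := add_le_add hb h1
      _ = W * (1 + 3 / Q) := by ring
  obtain ⟨hk1, hk2⟩ := kap_bound hv1 ht j hj
  have hK : 2 * nd t j / (1 - nd t j ^ 2) ≤ 4 := by
    rw [div_le_iff₀ (by nlinarith)]
    nlinarith
  have hK0 : 0 ≤ 2 * nd t j / (1 - nd t j ^ 2) := by
    have : 0 < 1 - nd t j ^ 2 := by nlinarith
    positivity
  have ht1 : (1 : ℝ) ≤ t := by exact_mod_cast ht
  have hkk : |kap t j| ≤ 4 + c₀ := by
    rw [abs_of_nonneg (by linarith)]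
    have : c₀ / (t : ℝ) ≤ c₀ := div_le_self hc₀pos.le ht1
    linarith
  have ha' : |aa t (j + 1)| ≤ W * (1 / Q + (4 + c₀) * (1 + 3 / Q)) := by
    rw [aa_succ ht j (by linarith)]
    calc |aa t j - kap t j * bb t (j + 1)| ≤ |aa t j| + |kap t j * bb t (j + 1)| := abs_sub _ _
      _ = |aa t j| + |kap t j| * |bb t (j + 1)| := by rw [abs_mul]
      _ ≤ W / Q + (4 + c₀) * (W * (1 + 3 / Q)) := by gcongr
      _ = W * (1 / Q + (4 + c₀) * (1 + 3 / Q)) := by ring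
  rw [ww_step ht j (by linarith) (by nlinarith)]
  refine (norm_sub_le _ _).trans ?_
  rw [norm_mul, norm_mul, norm_mul, Complex.norm_real, Complex.norm_real, Complex.norm_real,
    Real.norm_eq_abs, Real.norm_eq_abs, Real.norm_eq_abs, abs_of_nonneg hk1]
  have hm1 := mu_lip hv2 hu0 hu'.le hj
  rw [← hQdef] at hm1
  have hm2 : (1 + 2 / Q) * (nd t (j + 1) - nd t j) = (1 + 2 / Q) * 2 / (t : ℝ) := by
    rw [nd_succ]; ring
  rw [hm2] at hm1
  have hm3 := mu_norm_le hu0 (by linarith : nd t j ≤ 1)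
  calc ‖mu (nd t (j + 1)) - mu (nd t j)‖ * |aa t (j + 1)| +
        ‖mu (nd t j)‖ * (kap t j - 2 * nd t j / (1 - nd t j ^ 2)) * |bb t (j + 1)|
      ≤ ((1 + 2 / Q) * 2 / (t : ℝ)) * (W * (1 / Q + (4 + c₀) * (1 + 3 / Q)))
        + 2 * (c₀ / (t : ℝ)) * (W * (1 + 3 / Q)) := by gcongr
    _ = ((1 + 2 / Q) * 2 * (1 / Q + (4 + c₀) * (1 + 3 / Q)) + 2 * c₀ * (1 + 3 / Q)) / (t : ℝ) * W := by
      ring

/-- The phase variable. -/
noncomputable def zz (t j : ℕ) : ℂ := ww t j / (starRingEnd ℂ) (ww t j)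

lemma norm_zz_le (t j : ℕ) : ‖zz t j‖ ≤ 1 := by
  rw [zz, norm_div, RCLike.norm_conj]
  exact div_self_le_one _

lemma zz_step {v : ℝ} (hv : 0 ≤ v) (hv2 : 2 * v ^ 2 < 1) :
    ∃ (C : ℝ) (T : ℕ), 0 ≤ C ∧ 1 ≤ T ∧ ∀ t : ℕ, T ≤ t → ∀ j, nd t (j + 1) ≤ v →
      ‖zz t (j + 1) - lam (nd t j) ^ 2 * zz t j‖ ≤ C / (t : ℝ) := by
  obtain ⟨C, hC0, hC⟩ := ww_step_bound hv hv2
  obtain ⟨T, hT⟩ := exists_nat_gt (2 * C)
  refine ⟨4 * C, T + 1, by positivity, by omega, fun t ht j hj => ?_⟩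
  have htn : 0 < t := by omega
  have htpos : (0 : ℝ) < t := by exact_mod_cast htn
  have hTt : 2 * C < (t : ℝ) := hT.trans_le (by exact_mod_cast (by omega : T ≤ t))
  have hu0 := nd_nonneg t j
  have hu' : nd t j < nd t (j + 1) := by
    rw [nd_succ]; have : 0 < 2 / (t : ℝ) := by positivity
    linarith
  have h1 := hC t htn j hj
  have hCt : C / (t : ℝ) ≤ 1 / 2 := by
    rw [div_le_iff₀ htpos]; linarith
  set w := ww t j with hw
  set w' := ww t (j + 1) with hw'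
  set l := lam (nd t j) with hl
  have hl1 : ‖l‖ = 1 := norm_lam (by nlinarith)
  rcases eq_or_ne w 0 with h0 | h0
  · rw [h0, mul_zero, sub_zero, norm_zero, mul_zero] at h1
    have h2 : w' = 0 := norm_le_zero_iff.1 h1
    rw [zz, zz, ← hw, ← hw', h0, h2]
    simp
    positivity
  · have hwn : 0 < ‖w‖ := norm_pos_iff.2 h0
    have h2 : ‖w‖ / 2 ≤ ‖w'‖ := by
      have h3 : ‖l * w‖ - ‖w'‖ ≤ ‖w' - l * w‖ := by
        rw [norm_sub_rev]; exact norm_sub_norm_le _ _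
      rw [norm_mul, hl1, one_mul] at h3
      nlinarith
    have hw'n : 0 < ‖w'‖ := by linarith
    have hw'0 : w' ≠ 0 := norm_pos_iff.1 hw'n
    have hl0 : l ≠ 0 := by
      intro h; rw [h, norm_zero] at hl1; exact zero_ne_one hl1
    have hcl : (starRingEnd ℂ) l * l = 1 := by
      rw [mul_comm, Complex.mul_conj', hl1]; simp
    have hcw : (starRingEnd ℂ) w ≠ 0 := (map_ne_zero _).2 h0
    have hcw' : (starRingEnd ℂ) w' ≠ 0 := (map_ne_zero _).2 hw'0
    have h4 : zz t (j + 1) - l ^ 2 * zz t j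
        = ((w' - l * w) * (starRingEnd ℂ) w
            + w * (starRingEnd ℂ) (l * w - w') * l ^ 2) / ((starRingEnd ℂ) w' * (starRingEnd ℂ) w) := by
      rw [zz, zz, ← hw, ← hw', map_sub, map_mul]
      field_simp
      linear_combination (- (l * w * (starRingEnd ℂ) w)) * hcl
    rw [h4, norm_div, norm_mul, RCLike.norm_conj, RCLike.norm_conj, div_le_iff₀ (by positivity)]
    have h5 : ‖(w' - l * w) * (starRingEnd ℂ) w + w * (starRingEnd ℂ) (l * w - w') * l ^ 2‖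
        ≤ 2 * (C / (t : ℝ) * ‖w‖) * ‖w‖ := by
      refine (norm_add_le _ _).trans ?_
      rw [norm_mul, norm_mul, norm_mul, RCLike.norm_conj, RCLike.norm_conj, norm_pow, hl1, one_pow,
        norm_sub_rev (l * w) w']
      nlinarith
    refine h5.trans ?_
    have h6 : 0 ≤ C / (t : ℝ) := by positivity
    calc 2 * (C / (t : ℝ) * ‖w‖) * ‖w‖ = 4 * (C / (t : ℝ)) * ((‖w‖ / 2) * ‖w‖) := by ring
      _ ≤ 4 * (C / (t : ℝ)) * (‖w'‖ * ‖w‖) := by gcongr
      _ = 4 * C / (t : ℝ) * (‖w'‖ * ‖w‖) := by ring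

lemma norm_pow_sub_pow (a b : ℂ) (ha : ‖a‖ ≤ 1) (hb : ‖b‖ ≤ 1) (k : ℕ) :
    ‖a ^ k - b ^ k‖ ≤ k * ‖a - b‖ := by
  induction k with
  | zero => simp
  | succ k ih =>
    have h1 : a ^ (k + 1) - b ^ (k + 1) = a ^ k * (a - b) + (a ^ k - b ^ k) * b := by ring
    rw [h1]
    refine (norm_add_le _ _).trans ?_
    rw [norm_mul, norm_mul, norm_pow]
    have h2 : ‖a‖ ^ k ≤ 1 := pow_le_one₀ (norm_nonneg _) ha
    push_cast
    have h3 : ‖a‖ ^ k * ‖a - b‖ ≤ 1 * ‖a - b‖ := by gcongr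
    have h4 : ‖a ^ k - b ^ k‖ * ‖b‖ ≤ (k * ‖a - b‖) * 1 := by gcongr
    linarith

lemma lam_continuousOn {v : ℝ} (hv2 : 2 * v ^ 2 < 1) :
    ContinuousOn lam (Set.Icc 0 v) := by
  have h1 : ContinuousOn (fun u : ℝ => 2 * u / (1 - u ^ 2)) (Set.Icc 0 v) := by
    apply ContinuousOn.div (by fun_prop) (by fun_prop)
    intro u hu
    have h3 : u ≤ v := hu.2
    have h4 : 0 ≤ u := hu.1
    nlinarith
  have h2 : Continuous mu := by
    unfold mu
    have := qq_continuous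
    fun_prop
  exact continuousOn_const.sub ((Complex.continuous_ofReal.comp_continuousOn h1).mul
    h2.continuousOn)

lemma lam_injOn {v : ℝ} (hv2 : 2 * v ^ 2 < 1) : Set.InjOn lam (Set.Icc 0 v) := by
  intro x hx y hy hxy
  have h1 := congrArg Complex.re hxy
  rw [lam_re, lam_re] at h1
  have hx1 : x ^ 2 < 1 := by nlinarith [hx.1, hx.2]
  have hy1 : y ^ 2 < 1 := by nlinarith [hy.1, hy.2]
  have hx2 : 1 - x ^ 2 ≠ 0 := by linarith
  have hy2 : 1 - y ^ 2 ≠ 0 := by linarith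
  field_simp at h1
  have h2 : x ^ 2 = y ^ 2 := by linarith
  have h3 := (sq_eq_sq₀ hx.1 hy.1).1 h2
  exact h3

lemma resonance_countable {v : ℝ} (hv2 : 2 * v ^ 2 < 1) (m : ℕ) (hm : 0 < m) :
    (Set.Icc 0 v ∩ (fun u => lam u ^ m) ⁻¹' {1}).Countable := by
  apply Set.Finite.countable
  apply Set.Finite.of_finite_image (f := lam)
  · apply Set.Finite.subset (Polynomial.nthRootsFinset m (1 : ℂ)).finite_toSet
    rintro _ ⟨u, ⟨_, hu⟩, rfl⟩
    simp only [Set.mem_preimage, Set.mem_singleton_iff] at hu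
    rw [Finset.mem_coe, Polynomial.mem_nthRootsFinset hm]
    exact hu
  · exact (lam_injOn hv2).mono Set.inter_subset_left

/-- Cancellation for the powers of the phase. -/
lemma weyl_zz {v : ℝ} (hv : 0 ≤ v) (hv2 : 2 * v ^ 2 < 1) (k : ℕ) (hk : 0 < k)
    (c : ℝ → ℂ) (hc : ContinuousOn c (Set.Icc 0 v)) :
    Tendsto (fun t : ℕ => ∑ j ∈ range (NN v t),
      ((2 / (t : ℝ) : ℝ) : ℂ) * (c (nd t j) * zz t j ^ k)) atTop (𝓝 0) := by
  obtain ⟨C, T, hC0, hT1, hC⟩ := zz_step hv hv2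
  apply weyl hv (fun u => lam u ^ (2 * k)) ((lam_continuousOn hv2).pow _)
    (resonance_countable hv2 (2 * k) (by omega)) (fun t j => zz t j ^ k) (k * C) T
  · intro t _ j _
    rw [norm_pow]
    exact pow_le_one₀ (norm_nonneg _) (norm_zz_le t j)
  · intro t ht j hj
    have ht' : 0 < t := by omega
    rw [nd_le_iff hv ht'] at hj
    have h1 := hC t ht j hj
    have h2 : lam (nd t j) ^ (2 * k) * zz t j ^ k = (lam (nd t j) ^ 2 * zz t j) ^ k := by
      rw [mul_pow, pow_mul]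
    rw [h2]
    have hu0 := nd_nonneg t j
    have hu' : nd t j < nd t (j + 1) := by
      rw [nd_succ]
      have : 0 < 2 / (t : ℝ) := by positivity
      linarith
    have h3 : ‖lam (nd t j) ^ 2 * zz t j‖ ≤ 1 := by
      rw [norm_mul, norm_pow, norm_lam (by nlinarith)]
      simpa using norm_zz_le t j
    refine (norm_pow_sub_pow _ _ (norm_zz_le _ _) h3 k).trans ?_
    rw [mul_div_assoc]
    gcongr
  · exact hc

end Pool.Agent.Work.MP_10800c_mp
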