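import Mathlib
import Pool.Agent.Work.MP_10800c_mp.Elliptic2

/-!
# Feynman checkers: the elliptic region, the mean value
-/

namespace Pool.Agent.Work.MP_10800c_mp

open Finset Filter Topology Complex

/-- The limiting density in the elliptic region. -/
noncomputable def hh (u : ℝ) : ℝ := (1 + u / (1 + qq u)) / 2

/-- Auxiliary coefficient. -/
noncomputable def pc (u : ℝ) : ℂ := ((1 - u + qq u : ℝ) : ℂ) + I * (u : ℂ)

/-- Auxiliary coefficient. -/
noncomputable def rc (u : ℝ) : ℂ := ((qq u - 1 + u : ℝ) : ℂ) - I * (u : ℂ)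

/-- Auxiliary coefficient. -/
noncomputable def ee (u : ℝ) : ℂ := ((4 * qq u * (1 - u) : ℝ) : ℂ) / pc u ^ 2

/-- Auxiliary coefficient. -/
noncomputable def rho (u : ℝ) : ℂ := rc u / pc u

lemma pc_ne {u : ℝ} (hu1 : u < 1) : pc u ≠ 0 := by
  intro h
  have h1 := congrArg Complex.re h
  simp [pc] at h1
  have := qq_nonneg u
  linarith

lemma key_alg (α β u q : ℝ) (hq : q ^ 2 = 1 - 2 * u ^ 2) (hq0 : 0 < q) (hu0 : 0 ≤ u)
    (hu1 : u < 1) (hab : 0 < α ^ 2 + β ^ 2) (w cw p r : ℂ)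
    (hw : w = (((1 - u) * β : ℝ) : ℂ) + ((u : ℂ) - I * (q : ℂ)) * (α : ℂ))
    (hcw : cw = (((1 - u) * β : ℝ) : ℂ) + ((u : ℂ) + I * (q : ℂ)) * (α : ℂ))
    (hp : p = ((1 - u + q : ℝ) : ℂ) + I * (u : ℂ))
    (hr : r = ((q - 1 + u : ℝ) : ℂ) - I * (u : ℂ)) :
    (((4 * q * (1 - u) : ℝ) : ℂ) / p ^ 2 * (w / cw) / (1 + r / p * (w / cw))).re
      = 2 * (β ^ 2 / (α ^ 2 + β ^ 2) - (1 + u / (1 + q)) / 2) := by
  have hI : (I : ℂ) ^ 2 = -1 := I_sq
  have hqc : (q : ℂ) ^ 2 = 1 - 2 * (u : ℂ) ^ 2 := by exact_mod_cast congrArg (fun x : ℝ => (x : ℂ)) hq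
  have hp0 : p ≠ 0 := by
    intro h
    rw [hp] at h
    have h1 := congrArg Complex.re h
    simp at h1
    linarith
  have hcw0 : cw ≠ 0 := by
    intro h
    rw [hcw] at h
    have h1 := congrArg Complex.re h
    have h2 := congrArg Complex.im h
    simp at h1 h2
    rcases h2 with h2 | h2
    · exact hq0.ne' h2
    · rw [h2] at h1 hab
      simp at h1
      rcases h1 with h1 | h1
      · linarith
      · rw [h1] at hab; simp at hab
  have hu1c : (1 - (u : ℂ)) ≠ 0 := by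
    have : (1 - u) ≠ 0 := by linarith
    exact_mod_cast this
  have hq0c : (q : ℂ) ≠ 0 := by exact_mod_cast hq0.ne'
  have hq1c : (1 + (q : ℂ)) ≠ 0 := by
    have : (1 + q) ≠ 0 := by linarith
    exact_mod_cast this
  have habc : ((α : ℂ) ^ 2 + (β : ℂ) ^ 2) ≠ 0 := by exact_mod_cast hab.ne'
  have habf : ((α : ℂ) ^ 2 + (β : ℂ) ^ 2) = ((α : ℂ) - I * β) * ((α : ℂ) + I * β) := by
    linear_combination (β : ℂ) ^ 2 * hI
  have ha1 : ((α : ℂ) - I * β) ≠ 0 := by
    intro h; rw [h, zero_mul] at habf; exact habc habf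
  have ha2 : ((α : ℂ) + I * β) ≠ 0 := by
    intro h; rw [h, mul_zero] at habf; exact habc habf
  have h1 : p * cw + r * w = 2 * q * (1 - u) * I * ((α : ℂ) - I * β) := by
    rw [hp, hcw, hr, hw]
    push_cast
    linear_combination (2 * (u : ℂ) * q * α - 2 * u * q * β + 2 * q * β) * hI
  have h2 : p * ((1 - u + q : ℂ) - I * u) = 2 * (1 - u) * (1 + q) := by
    rw [hp]
    push_cast
    linear_combination (-(u : ℂ) ^ 2) * hI + hqc
  have h3 : ((4 * q * (1 - u) : ℝ) : ℂ) / p ^ 2 * (w / cw) / (1 + r / p * (w / cw))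
      = (-2 * I * w * ((1 - u + q : ℂ) - I * u) * ((α : ℂ) + I * β))
        / ((2 * (1 - u) * (1 + q) * (α ^ 2 + β ^ 2) : ℝ) : ℂ) := by
    have h4 : (1 + r / p * (w / cw)) = (p * cw + r * w) / (p * cw) := by
      field_simp
    have h5 : ((1 - u + q : ℂ) - I * u) ≠ 0 := by
      intro h; rw [h, mul_zero] at h2
      exact (mul_ne_zero (mul_ne_zero two_ne_zero hu1c) hq1c) h2.symm
    have h8 : p * cw + r * w ≠ 0 := by
      rw [h1]
      exact mul_ne_zero (mul_ne_zero (mul_ne_zero (mul_ne_zero two_ne_zero hq0c) hu1c) I_ne_zero) ha1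
    have h6 : ((4 * q * (1 - u) : ℝ) : ℂ) / p ^ 2 * (w / cw) / (1 + r / p * (w / cw))
        = (4 * q * (1 - u) * w) / (p * (p * cw + r * w)) := by
      rw [h4]
      push_cast
      field_simp
    have h7 : ((2 * (1 - u) * (1 + q) * (α ^ 2 + β ^ 2) : ℝ) : ℂ)
        = p * ((1 - u + q : ℂ) - I * u) * (((α : ℂ) - I * β) * ((α : ℂ) + I * β)) := by
      rw [← habf, h2]; push_cast; ring
    rw [h6, h7, div_eq_div_iff (mul_ne_zero hp0 h8)
      (mul_ne_zero (mul_ne_zero hp0 h5) (mul_ne_zero ha1 ha2)), h1]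
    linear_combination (4 * (q : ℂ) * (1 - u) * w * p * ((1 - u + q : ℂ) - I * u) *
      (((α : ℂ) - I * β) * ((α : ℂ) + I * β))) * hI
  rw [h3, Complex.div_ofReal_re]
  have h6 : (-2 * I * w * ((1 - u + q : ℂ) - I * u) * ((α : ℂ) + I * β)).re
      = 2 * ((1 - u) * ((1 + q - u) * β ^ 2 - (1 + q + u) * α ^ 2)) := by
    rw [hw]
    simp only [Complex.mul_re, Complex.mul_im, Complex.add_re, Complex.add_im, Complex.sub_re,
      Complex.sub_im, Complex.ofReal_re, Complex.ofReal_im, Complex.I_re, Complex.I_im,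
      Complex.neg_re, Complex.neg_im, Complex.one_re, Complex.one_im, Complex.re_ofNat,
      Complex.im_ofNat]
    linear_combination (-(2 : ℝ) * α ^ 2) * hq
  rw [h6]
  have h7 : (1 - u) ≠ 0 := by linarith
  have h8 : (1 + q) ≠ 0 := by linarith
  have h9 := hab.ne'
  field_simp
  ring

lemma key {t : ℕ} (ht : 2 ≤ t) (j : ℕ) (hu : 2 * nd t j ^ 2 < 1) :
    2 * (gg t (pt t j) - hh (nd t j))
      = (ee (nd t j) * zz t j / (1 + rho (nd t j) * zz t j)).re := by
  have hu0 := nd_nonneg t j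
  have hu1 : nd t j < 1 := by nlinarith
  have htpos : (0 : ℝ) < t := by exact_mod_cast (by omega : 0 < t)
  have hpt : pt t j < t := by
    have h1 : nd t j = (pt t j : ℝ) / (t : ℝ) := rfl
    rw [h1, div_lt_one htpos] at hu1
    exact_mod_cast hu1
  have h2 := key_alg (al (t - 1) (pt t j) : ℝ) (be (t - 1) (pt t j) : ℝ) (nd t j) (qq (nd t j))
    (qq_sq hu.le) (qq_pos hu) hu0 hu1 (ab_ne ht j hpt) (ww t j) ((starRingEnd ℂ) (ww t j))
    (pc (nd t j)) (rc (nd t j))
    (by rw [ww, bb, aa, mu]) (by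
      rw [ww, bb, aa, mu, map_add, map_mul, map_sub, map_mul, Complex.conj_ofReal,
        Complex.conj_ofReal, Complex.conj_ofReal, Complex.conj_ofReal, Complex.conj_I]
      ring) rfl rfl
  rw [gg, hh, ← h2]
  rfl

lemma norm_rho_sq {u : ℝ} (hu0 : 0 ≤ u) (hu : 2 * u ^ 2 < 1) :
    ‖rho u‖ ^ 2 = (1 - qq u) / (1 + qq u) := by
  have hq := qq_sq hu.le
  have hu1 : 0 < 1 - u := by nlinarith
  have hqp := qq_pos hu
  rw [rho, norm_div, div_pow, ← Complex.normSq_eq_norm_sq, ← Complex.normSq_eq_norm_sq,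
    Complex.normSq_apply, Complex.normSq_apply]
  have h1 : (rc u).re = qq u - 1 + u := by simp [rc]
  have h2 : (rc u).im = -u := by simp [rc]
  have h3 : (pc u).re = 1 - u + qq u := by simp [pc]
  have h4 : (pc u).im = u := by simp [pc]
  rw [h1, h2, h3, h4]
  have h5 : (qq u - 1 + u) * (qq u - 1 + u) + -u * -u = 2 * (1 - u) * (1 - qq u) := by
    linear_combination hq
  have h6 : (1 - u + qq u) * (1 - u + qq u) + u * u = 2 * (1 - u) * (1 + qq u) := by
    linear_combination hq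
  rw [h5, h6, mul_div_mul_left _ _ (by positivity)]

lemma pc_continuous : Continuous pc := by
  unfold pc
  have := qq_continuous
  fun_prop

lemma rc_continuous : Continuous rc := by
  unfold rc
  have := qq_continuous
  fun_prop

lemma ee_continuousOn {v : ℝ} (hv1 : v < 1) : ContinuousOn ee (Set.Icc 0 v) := by
  unfold ee
  apply ContinuousOn.div
  · have := qq_continuous
    have h : Continuous (fun x : ℝ => ((4 * qq x * (1 - x) : ℝ) : ℂ)) := by fun_prop
    exact h.continuousOn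
  · exact (pc_continuous.pow 2).continuousOn
  · intro u hu
    exact pow_ne_zero _ (pc_ne (lt_of_le_of_lt hu.2 hv1))

lemma rho_continuousOn {v : ℝ} (hv1 : v < 1) : ContinuousOn rho (Set.Icc 0 v) := by
  unfold rho
  apply ContinuousOn.div rc_continuous.continuousOn pc_continuous.continuousOn
  intro u hu
  exact pc_ne (lt_of_le_of_lt hu.2 hv1)

lemma sum_two_div {v : ℝ} (hv : 0 ≤ v) {t : ℕ} (ht : 0 < t) :
    ∑ _j ∈ range (NN v t), 2 / (t : ℝ) ≤ v + 2 := by
  have htpos : (0 : ℝ) < t := by exact_mod_cast ht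
  rw [Finset.sum_const, Finset.card_range, nsmul_eq_mul, ← nd_sub]
  have h1 := nd_NN_le hv ht
  have h2 := nd_nonneg t 0
  have h3 : 2 / (t : ℝ) ≤ 2 := by
    rw [div_le_iff₀ htpos]
    have : (1 : ℝ) ≤ t := by exact_mod_cast ht
    linarith
  linarith

/-- The mean value in the elliptic region. -/
theorem elliptic {v : ℝ} (hv : 0 ≤ v) (hv2 : 2 * v ^ 2 < 1) :
    Tendsto (fun t : ℕ => ∑ j ∈ range (NN v t), 2 / (t : ℝ) * (gg t (pt t j) - hh (nd t j)))
      atTop (𝓝 0) := by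
  have hv1 : v < 1 := by nlinarith
  have hQ := qq_pos hv2
  obtain ⟨M, hM⟩ := (isCompact_Icc (a := (0 : ℝ)) (b := v)).exists_bound_of_continuousOn
    (ee_continuousOn hv1)
  have hM0 : 0 ≤ M := (norm_nonneg _).trans (hM 0 ⟨le_rfl, hv⟩)
  set r : ℝ := √((1 - qq v) / (1 + qq v)) with hr
  have hr0 : 0 ≤ r := Real.sqrt_nonneg _
  have hrs : r ^ 2 = (1 - qq v) / (1 + qq v) := by
    rw [hr, Real.sq_sqrt]
    have := qq_le_one v
    apply div_nonneg <;> linarith
  have hr1 : r < 1 := by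
    have h1 : r ^ 2 < 1 := by
      rw [hrs, div_lt_one (by linarith)]; linarith
    nlinarith
  have hrho : ∀ u ∈ Set.Icc 0 v, ‖rho u‖ ≤ r := by
    intro u hu
    have h1 : 2 * u ^ 2 < 1 := by nlinarith [hu.1, hu.2]
    have h2 : ‖rho u‖ ^ 2 ≤ r ^ 2 := by
      rw [norm_rho_sq hu.1 h1, hrs]
      have h3 := qq_anti hu.1 hu.2
      have h4 := qq_le_one u
      rw [div_le_div_iff₀ (by linarith) (by linarith)]
      nlinarith
    exact (le_abs_self _).trans (abs_le_of_sq_le_sq h2 hr0)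
  rw [Metric.tendsto_atTop]
  intro ε hε
  obtain ⟨n, hn⟩ : ∃ n : ℕ, (v + 2) * (M * (r ^ n / (1 - r))) < ε := by
    have h1 : Tendsto (fun n : ℕ => (v + 2) * (M * (r ^ n / (1 - r)))) atTop
        (𝓝 ((v + 2) * (M * (0 / (1 - r))))) :=
      ((((tendsto_pow_atTop_nhds_zero_of_lt_one hr0 hr1).div_const _).const_mul _).const_mul _)
    simp only [zero_div, mul_zero] at h1
    exact (h1.eventually_lt_const hε).exists
  have hG : Tendsto (fun t : ℕ => ∑ k ∈ range n, ∑ j ∈ range (NN v t),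
      ((2 / (t : ℝ) : ℝ) : ℂ) * ((ee (nd t j) * (-rho (nd t j)) ^ k) * zz t j ^ (k + 1)))
      atTop (𝓝 0) := by
    have h1 := tendsto_finsetSum (f := fun k => fun t : ℕ => ∑ j ∈ range (NN v t),
      ((2 / (t : ℝ) : ℝ) : ℂ) * ((ee (nd t j) * (-rho (nd t j)) ^ k) * zz t j ^ (k + 1)))
      (a := fun _ => (0 : ℂ)) (x := atTop) (range n) (fun k _ => weyl_zz hv hv2 (k + 1) (by omega)
        (fun u => ee u * (-rho u) ^ k)
        ((ee_continuousOn hv1).mul ((rho_continuousOn hv1).neg.pow k)))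
    simpa using h1
  rw [Metric.tendsto_atTop] at hG
  obtain ⟨T, hT⟩ := hG ε hε
  refine ⟨max T 2, fun t ht => ?_⟩
  have htT : T ≤ t := (le_max_left _ _).trans ht
  have ht2 : 2 ≤ t := (le_max_right _ _).trans ht
  have htpos : (0 : ℝ) < t := by exact_mod_cast (by omega : 0 < t)
  have h1 := hT t htT
  rw [dist_zero_right] at h1 ⊢
  have hid : ∀ j ∈ range (NN v t), (ee (nd t j) * zz t j / (1 + rho (nd t j) * zz t j))
      = (∑ k ∈ range n, (ee (nd t j) * (-rho (nd t j)) ^ k) * zz t j ^ (k + 1))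
        + ee (nd t j) * zz t j * (-(rho (nd t j) * zz t j)) ^ n / (1 + rho (nd t j) * zz t j) := by
    intro j hj
    rw [Finset.mem_range, nd_le_iff hv (by omega)] at hj
    have hmem : nd t j ∈ Set.Icc 0 v := ⟨nd_nonneg t j, hj⟩
    have h2 : ‖rho (nd t j) * zz t j‖ < 1 := by
      rw [norm_mul]
      have := hrho _ hmem
      have h3 := norm_zz_le t j
      calc ‖rho (nd t j)‖ * ‖zz t j‖ ≤ r * 1 := by gcongr
        _ < 1 := by linarith
    have h3 : (1 + rho (nd t j) * zz t j) ≠ 0 := by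
      intro h
      have h4 : rho (nd t j) * zz t j = -1 := by linear_combination h
      rw [h4] at h2
      simp at h2
    have h5 := geom_sum_mul_neg (-(rho (nd t j) * zz t j)) n
    have h6 : ∑ k ∈ range n, (ee (nd t j) * (-rho (nd t j)) ^ k) * zz t j ^ (k + 1)
        = ee (nd t j) * zz t j * ∑ k ∈ range n, (-(rho (nd t j) * zz t j)) ^ k := by
      rw [Finset.mul_sum]
      refine Finset.sum_congr rfl fun k _ => ?_
      rw [← neg_mul, mul_pow]
      ring
    rw [h6, ← sub_eq_iff_eq_add, ← sub_div, div_eq_iff h3]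
    linear_combination (- (ee (nd t j) * zz t j)) * h5
  have hrem : ∀ j ∈ range (NN v t),
      ‖ee (nd t j) * zz t j * (-(rho (nd t j) * zz t j)) ^ n / (1 + rho (nd t j) * zz t j)‖
        ≤ M * (r ^ n / (1 - r)) := by
    intro j hj
    rw [Finset.mem_range, nd_le_iff hv (by omega)] at hj
    have hmem : nd t j ∈ Set.Icc 0 v := ⟨nd_nonneg t j, hj⟩
    have h2 : ‖rho (nd t j) * zz t j‖ ≤ r := by
      rw [norm_mul]
      have := hrho _ hmem
      have h3 := norm_zz_le t j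
      calc ‖rho (nd t j)‖ * ‖zz t j‖ ≤ r * 1 := by gcongr
        _ = r := by ring
    have h3 : 1 - r ≤ ‖1 + rho (nd t j) * zz t j‖ := by
      have := norm_sub_norm_le (1 : ℂ) (-(rho (nd t j) * zz t j))
      rw [norm_neg, norm_one, sub_neg_eq_add] at this
      linarith
    rw [norm_div, norm_mul, norm_mul, norm_pow, norm_neg, mul_div_assoc]
    have h4 := hM _ hmem
    have h5 := norm_zz_le t j
    have h6 : 0 < 1 - r := by linarith
    calc ‖ee (nd t j)‖ * ‖zz t j‖ * (‖rho (nd t j) * zz t j‖ ^ n / ‖1 + rho (nd t j) * zz t j‖)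
        ≤ M * 1 * (r ^ n / (1 - r)) := by gcongr
      _ = M * (r ^ n / (1 - r)) := by ring
  have hmain : 2 * ∑ j ∈ range (NN v t), 2 / (t : ℝ) * (gg t (pt t j) - hh (nd t j))
      = (∑ k ∈ range n, ∑ j ∈ range (NN v t),
      ((2 / (t : ℝ) : ℝ) : ℂ) * ((ee (nd t j) * (-rho (nd t j)) ^ k) * zz t j ^ (k + 1))).re
        + (∑ j ∈ range (NN v t), ((2 / (t : ℝ) : ℝ) : ℂ) *
          (ee (nd t j) * zz t j * (-(rho (nd t j) * zz t j)) ^ n / (1 + rho (nd t j) * zz t j))).re := by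
    rw [← Complex.add_re, Finset.sum_comm, ← Finset.sum_add_distrib, Complex.re_sum,
      Finset.mul_sum]
    refine Finset.sum_congr rfl fun j hj => ?_
    rw [← Finset.mul_sum, ← mul_add, ← hid j hj, Complex.re_ofReal_mul]
    rw [Finset.mem_range, nd_le_iff hv (by omega)] at hj
    rw [← key ht2 j (by nlinarith [nd_nonneg t j])]
    ring
  have h7 : ‖∑ j ∈ range (NN v t), ((2 / (t : ℝ) : ℝ) : ℂ) *
          (ee (nd t j) * zz t j * (-(rho (nd t j) * zz t j)) ^ n / (1 + rho (nd t j) * zz t j))‖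
        < ε := by
    refine lt_of_le_of_lt ?_ hn
    have h8 : ‖∑ j ∈ range (NN v t), ((2 / (t : ℝ) : ℝ) : ℂ) *
          (ee (nd t j) * zz t j * (-(rho (nd t j) * zz t j)) ^ n / (1 + rho (nd t j) * zz t j))‖
        ≤ ∑ j ∈ range (NN v t), 2 / (t : ℝ) * (M * (r ^ n / (1 - r))) := by
      refine norm_sum_le_of_le _ fun j hj => ?_
      rw [norm_mul, Complex.norm_real, Real.norm_of_nonneg (by positivity)]
      have := hrem j hj
      gcongr
    refine h8.trans ?_
    rw [← Finset.sum_mul]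
    have h9 := sum_two_div hv (by omega : 0 < t)
    have h10 : 0 ≤ M * (r ^ n / (1 - r)) := by
      have : 0 < 1 - r := by linarith
      positivity
    gcongr
  rw [Real.norm_eq_abs]
  have h8 := Complex.abs_re_le_norm (∑ k ∈ range n, ∑ j ∈ range (NN v t),
      ((2 / (t : ℝ) : ℝ) : ℂ) * ((ee (nd t j) * (-rho (nd t j)) ^ k) * zz t j ^ (k + 1)))
  have h9 := Complex.abs_re_le_norm (∑ j ∈ range (NN v t), ((2 / (t : ℝ) : ℝ) : ℂ) *
          (ee (nd t j) * zz t j * (-(rho (nd t j) * zz t j)) ^ n / (1 + rho (nd t j) * zz t j)))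
  rw [abs_lt]
  have h10 := abs_le.1 h8
  have h11 := abs_le.1 h9
  constructor <;> linarith

end Pool.Agent.Work.MP_10800c_mp
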