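import Mathlib
import Pool.Agent.Work.MP_10800c_mp.Elliptic3

/-!
# Feynman checkers: the hyperbolic region
-/

namespace Pool.Agent.Work.MP_10800c_mp

open Finset Filter Topology

/-- The ratio `-b/a`. -/
noncomputable def yy (t j : ℕ) : ℝ := -bb t j / aa t j

/-- `s(u) = √(2u²-1)`. -/
noncomputable def ss (u : ℝ) : ℝ := √(2 * u ^ 2 - 1)

lemma ss_nonneg (u : ℝ) : 0 ≤ ss u := Real.sqrt_nonneg _

lemma ss_sq {u : ℝ} (hu : 1 ≤ 2 * u ^ 2) : ss u ^ 2 = 2 * u ^ 2 - 1 := by
  rw [ss, Real.sq_sqrt (by linarith)]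

lemma ss_continuous : Continuous ss := by unfold ss; fun_prop

/-- The barrier. -/
lemma barrier {t : ℕ} (ht : 2 ≤ t) (m : ℕ) : ∀ j : ℕ, pt t j + 2 + 2 * m = t →
    1 ≤ 2 * nd t j ^ 2 → aa t j ≠ 0 ∧ nd t j ≤ yy t j ∧ yy t j ≤ 2 * nd t j := by
  have htpos : (0 : ℝ) < t := by exact_mod_cast (by omega : 0 < t)
  induction m with
  | zero =>
    intro j hj hu
    obtain ⟨n, rfl⟩ : ∃ n, t = n + 2 := ⟨t - 2, by omega⟩
    have h0 : pt (n + 2) j = n := by omega
    have h1 := al_right n
    have h2 := (R12 (n + 1) n).1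
    rw [h1] at h2
    have h3 : be (n + 1) n = -(n : ℤ) := by push_cast at h2; linarith
    have ha : aa (n + 2) j = 1 := by
      rw [aa, h0]
      have : n + 2 - 1 = n + 1 := rfl
      rw [this, h1]; simp
    have hu' : nd (n + 2) j = (n : ℝ) / ((n + 2 : ℕ) : ℝ) := by rw [nd, h0]
    have hb : bb (n + 2) j = - (2 * nd (n + 2) j) := by
      rw [bb, hu', h0]
      have : n + 2 - 1 = n + 1 := rfl
      rw [this, h3]
      have h4 : ((n + 2 : ℕ) : ℝ) ≠ 0 := htpos.ne'
      push_cast at h4 ⊢
      field_simp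
      ring
    have hu0 := nd_nonneg (n + 2) j
    rw [yy, ha, hb]
    refine ⟨one_ne_zero, ?_, ?_⟩
    · rw [neg_neg, div_one]; linarith
    · rw [neg_neg, div_one]
  | succ m ih =>
    intro j hj hu
    have hj' : pt t (j + 1) + 2 + 2 * m = t := by rw [pt] at hj ⊢; omega
    have hu0 := nd_nonneg t j
    have hlt : nd t j < nd t (j + 1) := by
      rw [nd_succ]
      have : 0 < 2 / (t : ℝ) := by positivity
      linarith
    obtain ⟨ha, hy1, hy2⟩ := ih (j + 1) hj' (by nlinarith)
    have hupos : 0 < nd t j := by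
      rcases hu0.lt_or_eq with h | h
      · exact h
      · rw [← h] at hu; norm_num at hu
    have hu1 : nd t (j + 1) < 1 := by
      rw [nd, div_lt_one htpos]
      exact_mod_cast (by omega : pt t (j + 1) < t)
    have hA := aa_succ (by omega : 0 < t) j hu1
    have hB := bb_succ (by omega : 0 < t) j
    set u := nd t j with hudef
    set u' := nd t (j + 1) with hu'def
    set k := kap t j with hk
    set Y' := yy t (j + 1) with hY'
    have hY'pos : 0 < Y' := by linarith
    have hkeq : k * ((1 + u) * (1 - u')) = u + u' := by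
      rw [hk, kap, ← hudef, ← hu'def]
      have h1 : (1 + u) * (1 - u') ≠ 0 := by
        apply mul_ne_zero <;> linarith
      rw [div_mul_cancel₀ _ h1, hu'def, nd_succ, ← hudef]
      ring
    have hprod : (1 + u) * (1 - u') ≤ u * u' := by nlinarith
    have hprodpos : 0 < (1 + u) * (1 - u') := by
      apply mul_pos <;> linarith
    have hkpos : 0 < k := by
      by_contra h
      push Not at h
      have : k * ((1 + u) * (1 - u')) ≤ 0 := mul_nonpos_of_nonpos_of_nonneg h hprodpos.le
      linarith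
    have hkuu : u + u' ≤ k * (u * u') := by
      rw [← hkeq]
      exact mul_le_mul_of_nonneg_left hprod hkpos.le
    -- `k Y' - 1 ≥ u'/u`
    have hkY : Y' + u ≤ u * (k * Y') := by
      have h1 : (u + u') * Y' ≤ k * (u * u') * Y' := mul_le_mul_of_nonneg_right hkuu hY'pos.le
      have h2 : u' * (Y' + u) ≤ u' * (u * (k * Y')) := by nlinarith
      exact le_of_mul_le_mul_left h2 (by linarith)
    have hkY1 : 0 < k * Y' - 1 := by
      have h1 : 0 < u * (k * Y' - 1) := by nlinarith
      exact (pos_iff_pos_of_mul_pos h1).1 hupos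
    have hbY : bb t (j + 1) = -(Y' * aa t (j + 1)) := by
      rw [hY', yy, div_mul_cancel₀ _ ha, neg_neg]
    have haj : aa t j = aa t (j + 1) * (1 - k * Y') := by
      rw [hbY] at hA
      linear_combination -hA
    have haj0 : aa t j ≠ 0 := by
      rw [haj]
      apply mul_ne_zero ha
      linarith
    have hYeq : yy t j = 2 * u - Y' / (k * Y' - 1) := by
      have h1 : bb t j = -(Y' * aa t (j + 1)) - 2 * u * aa t j := by
        rw [← hbY]; linear_combination -hB
      rw [yy, h1]
      have h2 : (k * Y' - 1) ≠ 0 := hkY1.ne'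
      have h3 : aa t (j + 1) = - aa t j / (k * Y' - 1) := by
        rw [eq_div_iff h2, haj]; ring
      rw [h3]
      field_simp
      ring
    refine ⟨haj0, ?_, ?_⟩
    · rw [hYeq]
      have h1 : Y' / (k * Y' - 1) ≤ u := by
        rw [div_le_iff₀ hkY1]; nlinarith
      linarith
    · rw [hYeq]
      have h1 : 0 ≤ Y' / (k * Y' - 1) := by positivity
      linarith

/-- The barrier, for all nodes in the hyperbolic region. -/
lemma barrier' {t : ℕ} (ht : 2 ≤ t) (j : ℕ) (hj : nd t j < 1) (hu : 1 ≤ 2 * nd t j ^ 2) :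
    aa t j ≠ 0 ∧ nd t j ≤ yy t j ∧ yy t j ≤ 2 * nd t j := by
  have htpos : (0 : ℝ) < t := by exact_mod_cast (by omega : 0 < t)
  have h1 : pt t j < t := by
    rw [nd, div_lt_one htpos] at hj
    exact_mod_cast hj
  exact barrier ht ((t - 2 - pt t j) / 2) j (by rw [pt] at h1 ⊢; omega) hu

/-- The exact recurrence of the ratio. -/
lemma yy_rec {t : ℕ} (ht : 2 ≤ t) (j : ℕ) (hj : nd t (j + 1) < 1) (hu : 1 ≤ 2 * nd t j ^ 2) :
    1 ≤ kap t j * yy t (j + 1) - 1 ∧
    yy t j = 2 * nd t j - yy t (j + 1) / (kap t j * yy t (j + 1) - 1) := by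
  have htpos : (0 : ℝ) < t := by exact_mod_cast (by omega : 0 < t)
  have hu0 := nd_nonneg t j
  have hlt : nd t j < nd t (j + 1) := by
    rw [nd_succ]
    have : 0 < 2 / (t : ℝ) := by positivity
    linarith
  obtain ⟨ha, hy1, hy2⟩ := barrier' ht (j + 1) hj (by nlinarith)
  have hupos : 0 < nd t j := by
    rcases hu0.lt_or_eq with h | h
    · exact h
    · rw [← h] at hu; norm_num at hu
  have hA := aa_succ (by omega : 0 < t) j hj
  have hB := bb_succ (by omega : 0 < t) j
  set u := nd t j with hudef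
  set u' := nd t (j + 1) with hu'def
  set k := kap t j with hk
  set Y' := yy t (j + 1) with hY'
  have hY'pos : 0 < Y' := by linarith
  have hkeq : k * ((1 + u) * (1 - u')) = u + u' := by
    rw [hk, kap, ← hudef, ← hu'def]
    have h1 : (1 + u) * (1 - u') ≠ 0 := by
      apply mul_ne_zero <;> linarith
    rw [div_mul_cancel₀ _ h1, hu'def, nd_succ, ← hudef]
    ring
  have hprod : (1 + u) * (1 - u') ≤ u * u' := by nlinarith
  have hprodpos : 0 < (1 + u) * (1 - u') := by
    apply mul_pos <;> linarith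
  have hkpos : 0 < k := by
    by_contra h
    push Not at h
    have : k * ((1 + u) * (1 - u')) ≤ 0 := mul_nonpos_of_nonpos_of_nonneg h hprodpos.le
    linarith
  have hkuu : u + u' ≤ k * (u * u') := by
    rw [← hkeq]
    exact mul_le_mul_of_nonneg_left hprod hkpos.le
  have hku : 2 ≤ k * u' := by
    have h1 : u * 2 ≤ u * (k * u') := by nlinarith
    exact le_of_mul_le_mul_left h1 hupos
  have hkY1 : 1 ≤ k * Y' - 1 := by
    have : k * u' ≤ k * Y' := mul_le_mul_of_nonneg_left hy1 hkpos.le
    linarith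
  refine ⟨hkY1, ?_⟩
  have hbY : bb t (j + 1) = -(Y' * aa t (j + 1)) := by
    rw [hY', yy, div_mul_cancel₀ _ ha, neg_neg]
  have haj : aa t j = aa t (j + 1) * (1 - k * Y') := by
    rw [hbY] at hA
    linear_combination -hA
  have haj0 : aa t j ≠ 0 := by
    rw [haj]
    apply mul_ne_zero ha
    linarith
  have h1 : bb t j = -(Y' * aa t (j + 1)) - 2 * u * aa t j := by
    rw [← hbY]; linear_combination -hB
  rw [yy, h1]
  have h2 : (k * Y' - 1) ≠ 0 := by linarith
  have h3 : aa t (j + 1) = - aa t j / (k * Y' - 1) := by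
    rw [eq_div_iff h2, haj]; ring
  rw [h3]
  field_simp
  ring

end Pool.Agent.Work.MP_10800c_mp
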