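import Mathlib
import Pool.Agent.Work.MP_10800c_mp.Hyperbolic

/-!
# Feynman checkers: the hyperbolic region, contraction
-/

namespace Pool.Agent.Work.MP_10800c_mp

open Finset Filter Topology

/-- The attracting fixed point. -/
noncomputable def zp (u : ℝ) : ℝ := u + ss u

lemma ss_mono {u v : ℝ} (hu : 0 ≤ u) (huv : u ≤ v) : ss u ≤ ss v := by
  apply Real.sqrt_le_sqrt
  nlinarith

lemma ss_le {u : ℝ} (hu : 0 ≤ u) (hu1 : u ≤ 1) : ss u ≤ u := by
  rw [ss]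
  apply Real.sqrt_le_iff.2 ⟨hu, by nlinarith⟩

lemma ss_lip {v₁ : ℝ} (hv₁ : 1 < 2 * v₁ ^ 2) (hv₁0 : 0 < v₁) {u u' : ℝ} (hu : v₁ ≤ u)
    (huu' : u ≤ u') (hu' : u' ≤ 1) : zp u' - zp u ≤ (1 + 2 / ss v₁) * (u' - u) ∧
      0 ≤ zp u' - zp u := by
  have hσ : 0 < ss v₁ := Real.sqrt_pos.2 (by linarith)
  have h1 : ss v₁ ≤ ss u := ss_mono hv₁0.le hu
  have h2 : ss u ≤ ss u' := ss_mono (by linarith) huu'
  have h3 : (ss u' - ss u) * (ss u' + ss u) = 2 * (u' - u) * (u' + u) := by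
    have h4 := ss_sq (u := u) (by nlinarith)
    have h5 := ss_sq (u := u') (by nlinarith)
    linear_combination h5 - h4
  have h6 : ss u' - ss u ≤ 2 / ss v₁ * (u' - u) := by
    rw [div_mul_eq_mul_div, le_div_iff₀ hσ]
    have h7 : (ss u' - ss u) * (2 * ss v₁) ≤ (ss u' - ss u) * (ss u' + ss u) := by
      apply mul_le_mul_of_nonneg_left _ (by linarith)
      linarith
    nlinarith
  rw [zp, zp]
  constructor
  · linarith
  · linarith

/-- The exact error at a node. -/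
noncomputable def er (t j : ℕ) : ℝ := |yy t j - zp (nd t j)|

lemma er_le_one {t : ℕ} (ht : 2 ≤ t) (j : ℕ) (hj : nd t j < 1) (hu : 1 ≤ 2 * nd t j ^ 2) :
    er t j ≤ 1 := by
  obtain ⟨_, h1, h2⟩ := barrier' ht j hj hu
  have hu0 := nd_nonneg t j
  have h3 := ss_nonneg (nd t j)
  have h4 := ss_le hu0 hj.le
  rw [er, zp, abs_le]
  constructor <;> linarith

lemma frac_diff (z Y k K : ℝ) (h1 : K * z - 1 ≠ 0) (h2 : K * Y - 1 ≠ 0) (h3 : k * Y - 1 ≠ 0) :
    z / (K * z - 1) - Y / (k * Y - 1) = (Y - z) * (-(1 / ((K * z - 1) * (K * Y - 1)))) * (-1)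
      + (k - K) * (Y ^ 2 / ((K * Y - 1) * (k * Y - 1))) := by
  obtain ⟨A, hA⟩ : ∃ A, A = K * z - 1 := ⟨_, rfl⟩
  obtain ⟨B, hB⟩ : ∃ B, B = K * Y - 1 := ⟨_, rfl⟩
  obtain ⟨C, hC⟩ : ∃ C, C = k * Y - 1 := ⟨_, rfl⟩
  rw [← hA] at h1
  rw [← hB] at h2
  rw [← hC] at h3
  rw [← hA, ← hB, ← hC]
  field_simp
  rw [hA, hB, hC]
  ring

lemma er_step {v₁ v₂ : ℝ} (hv₁ : 1 < 2 * v₁ ^ 2) (hv₁0 : 0 < v₁) (hv₂ : v₂ < 1) :
    ∃ θ C : ℝ, 0 ≤ θ ∧ θ < 1 ∧ 0 ≤ C ∧ ∀ t : ℕ, 2 ≤ t → ∀ j, v₁ ≤ nd t j → nd t (j + 1) ≤ v₂ →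
      er t j ≤ θ * er t (j + 1) + C / (t : ℝ) := by
  have hσ : 0 < ss v₁ := Real.sqrt_pos.2 (by linarith)
  set σ := ss v₁ with hσdef
  set c₀ : ℝ := 2 / (1 - v₂) ^ 2 with hc₀
  have hc₀pos : 0 < c₀ := by
    have : 0 < 1 - v₂ := by linarith
    positivity
  refine ⟨1 / (1 + 2 * σ), 1 / (1 + 2 * σ) * ((1 + 2 / σ) * 2) + 4 * c₀, by positivity, ?_,
    by positivity, ?_⟩
  · rw [div_lt_one (by positivity)]; linarith
  intro t ht j hj1 hj2
  have htpos : (0 : ℝ) < t := by exact_mod_cast (by omega : 0 < t)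
  have hlt : nd t j < nd t (j + 1) := by
    rw [nd_succ]
    have : 0 < 2 / (t : ℝ) := by positivity
    linarith
  have hu2 : 1 ≤ 2 * nd t j ^ 2 := by nlinarith
  obtain ⟨hk1, hY⟩ := yy_rec ht j (by linarith) hu2
  obtain ⟨_, hy1, hy2⟩ := barrier' ht (j + 1) (by linarith) (by nlinarith)
  obtain ⟨hkK0, hkK⟩ := kap_bound hv₂ (by omega : 0 < t) j hj2
  rw [← hc₀] at hkK
  obtain ⟨hl1, hl0⟩ := ss_lip hv₁ hv₁0 hj1 hlt.le (by linarith)
  rw [← hσdef] at hl1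
  have hnd : nd t (j + 1) - nd t j = 2 / (t : ℝ) := by rw [nd_succ]; ring
  rw [hnd] at hl1
  set u := nd t j with hudef
  set u' := nd t (j + 1) with hu'def
  set k := kap t j with hk
  set Y := yy t j with hYdef
  set Y' := yy t (j + 1) with hY'
  obtain ⟨K, hK⟩ : ∃ K : ℝ, K = 2 * u / (1 - u ^ 2) := ⟨_, rfl⟩
  rw [← hK] at hkK0 hkK
  have hupos : 0 < u := by linarith
  have hu1 : u < 1 := by linarith
  have hden : 0 < 1 - u ^ 2 := by nlinarith
  have hK2 : 2 ≤ K := by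
    rw [hK, le_div_iff₀ hden]
    nlinarith
  have hKu : 2 ≤ K * u := by
    rw [hK, div_mul_eq_mul_div, le_div_iff₀ hden]
    nlinarith
  have hKY : 1 ≤ K * Y' - 1 := by
    have : K * u ≤ K * Y' := mul_le_mul_of_nonneg_left (by linarith) (by linarith)
    linarith
  have hs : σ ≤ ss u := ss_mono hv₁0.le hj1
  have hKz : 1 + 2 * σ ≤ K * zp u - 1 := by
    rw [zp]
    have : 2 * σ ≤ K * ss u := mul_le_mul hK2 hs hσ.le (by linarith)
    linarith
  have hfix : zp u = 2 * u - zp u / (K * zp u - 1) := by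
    have h1 : (K * zp u - 1) ≠ 0 := by linarith
    have h2 : K * (1 - u ^ 2) = 2 * u := by rw [hK]; field_simp
    have h3 := ss_sq hu2
    have h4 : zp u * (K * zp u - 1) = 2 * u * (K * zp u - 1) - zp u := by
      have h5 : zp u ^ 2 = 2 * u * zp u - (1 - u ^ 2) := by rw [zp]; linear_combination h3
      linear_combination K * h5 - h2
    have h5 : zp u / (K * zp u - 1) = 2 * u - zp u := by
      rw [div_eq_iff h1]; linear_combination h4
    linarith
  have hdiff : Y - zp u = (Y' - zp u) * (-(1 / ((K * zp u - 1) * (K * Y' - 1)))) * (-1)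
      + (k - K) * (Y' ^ 2 / ((K * Y' - 1) * (k * Y' - 1))) := by
    have h1 : (K * zp u - 1) ≠ 0 := by linarith
    have h2 : (K * Y' - 1) ≠ 0 := by linarith
    have h3 : (k * Y' - 1) ≠ 0 := by linarith
    rw [← frac_diff _ _ _ _ h1 h2 h3]
    linarith
  have hA : |(Y' - zp u) * (-(1 / ((K * zp u - 1) * (K * Y' - 1)))) * (-1)|
      ≤ 1 / (1 + 2 * σ) * |Y' - zp u| := by
    have h1 : 0 < (K * zp u - 1) * (K * Y' - 1) := by
      apply mul_pos <;> linarith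
    rw [abs_mul, abs_mul, abs_neg, abs_neg, abs_one, mul_one, mul_comm,
      abs_of_pos (by positivity : 0 < 1 / ((K * zp u - 1) * (K * Y' - 1)))]
    have h2 : 1 + 2 * σ ≤ (K * zp u - 1) * (K * Y' - 1) := by nlinarith
    gcongr
  have hB : |(k - K) * (Y' ^ 2 / ((K * Y' - 1) * (k * Y' - 1)))| ≤ 4 * c₀ / (t : ℝ) := by
    have h1 : 1 ≤ (K * Y' - 1) * (k * Y' - 1) := by nlinarith
    have h2 : 0 ≤ Y' := by linarith
    have h3 : Y' ≤ 2 := by linarith
    rw [abs_mul, abs_of_nonneg hkK0, abs_of_nonneg (by positivity)]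
    have h4 : Y' ^ 2 / ((K * Y' - 1) * (k * Y' - 1)) ≤ 4 := by
      rw [div_le_iff₀ (by linarith)]
      nlinarith
    calc (k - K) * (Y' ^ 2 / ((K * Y' - 1) * (k * Y' - 1))) ≤ (c₀ / (t : ℝ)) * 4 := by
          apply mul_le_mul hkK h4 (by positivity) (by positivity)
      _ = 4 * c₀ / (t : ℝ) := by ring
  have hC : |Y' - zp u| ≤ er t (j + 1) + (1 + 2 / σ) * (2 / (t : ℝ)) := by
    have h1 : Y' - zp u = (Y' - zp u') + (zp u' - zp u) := by ring
    rw [h1, er]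
    refine (abs_add_le _ _).trans ?_
    rw [abs_of_nonneg hl0]
    linarith
  have hθ : 0 ≤ 1 / (1 + 2 * σ) := by positivity
  calc er t j = |Y - zp u| := rfl
    _ ≤ 1 / (1 + 2 * σ) * |Y' - zp u| + 4 * c₀ / (t : ℝ) := by
        rw [hdiff]
        exact (abs_add_le _ _).trans (add_le_add hA hB)
    _ ≤ 1 / (1 + 2 * σ) * (er t (j + 1) + (1 + 2 / σ) * (2 / (t : ℝ))) + 4 * c₀ / (t : ℝ) := by
        gcongr
    _ = 1 / (1 + 2 * σ) * er t (j + 1)
        + (1 / (1 + 2 * σ) * ((1 + 2 / σ) * 2) + 4 * c₀) / (t : ℝ) := by ring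

lemma nd_mono {t i j : ℕ} (h : i ≤ j) : nd t i ≤ nd t j := by
  rw [nd, nd, pt, pt]
  gcongr

lemma er_small {v₁ v : ℝ} (hv₁ : 1 < 2 * v₁ ^ 2) (hv₁0 : 0 < v₁) (hv : v < 1) {ε : ℝ}
    (hε : 0 < ε) : ∃ T : ℕ, 2 ≤ T ∧ ∀ t ≥ T, ∀ j, v₁ ≤ nd t j → nd t j ≤ v → er t j ≤ ε := by
  obtain ⟨θ, C, hθ0, hθ1, hC0, hstep⟩ := er_step (v₂ := (1 + v) / 2) hv₁ hv₁0 (by linarith)
  have hiter : ∀ t : ℕ, 2 ≤ t → ∀ m j : ℕ, v₁ ≤ nd t j → nd t (j + m) ≤ (1 + v) / 2 →
      er t j ≤ θ ^ m + m * (C / (t : ℝ)) := by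
    intro t ht m
    have htpos : (0 : ℝ) < t := by exact_mod_cast (by omega : 0 < t)
    induction m with
    | zero =>
      intro j h1 h2
      rw [pow_zero]
      have h3 : nd t j < 1 := by rw [add_zero] at h2; linarith
      have := er_le_one ht j h3 (by nlinarith)
      simpa using this
    | succ m ih =>
      intro j h1 h2
      have h3 : nd t j ≤ nd t (j + 1) := nd_mono (by omega)
      have h4 := ih (j + 1) (by linarith) (by rw [show j + 1 + m = j + (m + 1) by ring]; exact h2)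
      have h5 : nd t (j + 1) ≤ nd t (j + (m + 1)) := nd_mono (by omega)
      have h6 := hstep t ht j h1 (by linarith)
      have h7 : θ * er t (j + 1) ≤ θ * (θ ^ m + m * (C / (t : ℝ))) := by gcongr
      have h8 : θ * (m * (C / (t : ℝ))) ≤ 1 * (m * (C / (t : ℝ))) := by gcongr
      push_cast
      rw [pow_succ]
      have h9 : θ * (θ ^ m + m * (C / (t : ℝ))) = θ ^ m * θ + θ * (m * (C / (t : ℝ))) := by ring
      linarith
  obtain ⟨m, hm⟩ := ((tendsto_pow_atTop_nhds_zero_of_lt_one hθ0 hθ1).eventually_lt_const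
    (by positivity : 0 < ε / 2)).exists
  obtain ⟨T, hT⟩ := exists_nat_gt (max (2 * (m * C) / ε) (2 * m / ((1 - v) / 2)))
  refine ⟨max T 2, le_max_right _ _, fun t ht j h1 h2 => ?_⟩
  have ht2 : 2 ≤ t := (le_max_right _ _).trans ht
  have htpos : (0 : ℝ) < t := by exact_mod_cast (by omega : 0 < t)
  have htT : max (2 * (m * C) / ε) (2 * m / ((1 - v) / 2)) < (t : ℝ) :=
    hT.trans_le (by exact_mod_cast ((le_max_left _ _).trans ht))
  have h3 := lt_of_le_of_lt (le_max_left _ _) htT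
  have h4 := lt_of_le_of_lt (le_max_right _ _) htT
  rw [div_lt_iff₀ hε] at h3
  rw [div_lt_iff₀ (by linarith)] at h4
  have h5 : nd t (j + m) ≤ (1 + v) / 2 := by
    have h6 : nd t (j + m) = nd t j + 2 * m / (t : ℝ) := by
      rw [nd, nd, pt, pt]; push_cast; ring
    have h7 : 2 * (m : ℝ) / (t : ℝ) ≤ (1 - v) / 2 := by
      rw [div_le_iff₀ htpos]; linarith
    rw [h6]; linarith
  refine (hiter t ht2 m j h1 h5).trans ?_
  have h6 : m * (C / (t : ℝ)) ≤ ε / 2 := by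
    rw [mul_div_assoc', div_le_iff₀ htpos]; linarith
  linarith

/-- The limiting density in the hyperbolic region. -/
noncomputable def gh (u : ℝ) : ℝ := 1 / 2 + (1 + ss u) / (4 * u)

lemma gg_gh {t : ℕ} (ht : 2 ≤ t) (j : ℕ) (hj : nd t j < 1) (hu : 1 ≤ 2 * nd t j ^ 2) :
    |gg t (pt t j) - gh (nd t j)| ≤ 8 * er t j := by
  obtain ⟨ha, h1, h2⟩ := barrier' ht j hj hu
  have hu0 := nd_nonneg t j
  have hupos : 0 < nd t j := by
    rcases hu0.lt_or_eq with h | h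
    · exact h
    · rw [← h] at hu; norm_num at hu
  have hsu := ss_nonneg (nd t j)
  have hsu' := ss_le hu0 hj.le
  have hss := ss_sq hu
  have hz : gh (nd t j) = zp (nd t j) ^ 2 / ((1 - nd t j) ^ 2 + zp (nd t j) ^ 2) := by
    have h3 : 0 < (1 - nd t j) ^ 2 + zp (nd t j) ^ 2 := by
      have : 0 < 1 - nd t j := by linarith
      positivity
    rw [gh, eq_div_iff h3.ne', zp]
    field_simp
    set u := nd t j
    set s := ss u
    linear_combination (2 * (1 + s)) * hss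
  have hy : gg t (pt t j) = yy t j ^ 2 / ((1 - nd t j) ^ 2 + yy t j ^ 2) := by
    have hb : (be (t - 1) (pt t j) : ℝ) * (1 - nd t j) = -(yy t j) * aa t j := by
      rw [yy, bb]; field_simp
    have h4 : (1 - nd t j) ≠ 0 := by linarith
    have h5 : (be (t - 1) (pt t j) : ℝ) = -(yy t j) * aa t j / (1 - nd t j) := by
      rw [eq_div_iff h4]; exact hb
    have h6 : (al (t - 1) (pt t j) : ℝ) = aa t j := rfl
    rw [gg, h5, h6]
    have h7 : (1 - nd t j) ^ 2 + yy t j ^ 2 ≠ 0 := by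
      have : 0 < (1 - nd t j) ^ 2 := by positivity
      positivity
    field_simp
  rw [hz, hy, er]
  set Y := yy t j
  set z := zp (nd t j) with hzdef
  set c := (1 - nd t j) ^ 2 with hc
  have hc0 : 0 < c := by
    have : 0 < 1 - nd t j := by linarith
    positivity
  have hzu : nd t j ≤ z := by rw [hzdef, zp]; linarith
  have hz2 : 1 / 2 ≤ z ^ 2 := by nlinarith
  have hz3 : z ≤ 2 := by rw [hzdef, zp]; linarith
  have h8 : Y ^ 2 / (c + Y ^ 2) - z ^ 2 / (c + z ^ 2)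
      = (Y - z) * ((Y + z) * (c / (c + Y ^ 2)) / (c + z ^ 2)) := by
    have h9 : c + Y ^ 2 ≠ 0 := by positivity
    have h10 : c + z ^ 2 ≠ 0 := by positivity
    field_simp
    ring
  rw [h8, abs_mul, mul_comm]
  have h11 : |(Y + z) * (c / (c + Y ^ 2)) / (c + z ^ 2)| ≤ 8 := by
    have h12 : 0 ≤ c / (c + Y ^ 2) := by positivity
    have h13 : c / (c + Y ^ 2) ≤ 1 := by
      apply div_le_one_of_le₀ <;> nlinarith [sq_nonneg Y]
    have h14 : 0 ≤ Y + z := by linarith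
    rw [abs_of_nonneg (by positivity), div_le_iff₀ (by positivity)]
    have h15 : Y + z ≤ 4 := by linarith
    calc (Y + z) * (c / (c + Y ^ 2)) ≤ 4 * 1 := by gcongr
      _ ≤ 8 * (c + z ^ 2) := by nlinarith
  gcongr

/-- The sum in the hyperbolic region. -/
theorem hyper {v₁ v : ℝ} (hv₁ : 1 < 2 * v₁ ^ 2) (hv₁0 : 0 < v₁) (hv₁v : v₁ ≤ v) (hv : v < 1) :
    Tendsto (fun t : ℕ => ∑ j ∈ Ico (NN v₁ t) (NN v t),
      2 / (t : ℝ) * (gg t (pt t j) - gh (nd t j))) atTop (𝓝 0) := by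
  rw [Metric.tendsto_atTop]
  intro ε hε
  have hv0 : 0 ≤ v := by linarith
  obtain ⟨T, hT2, hT⟩ := er_small hv₁ hv₁0 hv (ε := ε / (16 * (v + 2))) (by positivity)
  refine ⟨T, fun t ht => ?_⟩
  have htn : 0 < t := by omega
  have htpos : (0 : ℝ) < t := by exact_mod_cast htn
  rw [dist_zero_right, Real.norm_eq_abs]
  have h1 : |∑ j ∈ Ico (NN v₁ t) (NN v t), 2 / (t : ℝ) * (gg t (pt t j) - gh (nd t j))|
      ≤ ∑ j ∈ Ico (NN v₁ t) (NN v t), 2 / (t : ℝ) * (8 * (ε / (16 * (v + 2)))) := by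
    refine (Finset.abs_sum_le_sum_abs _ _).trans (Finset.sum_le_sum fun j hj => ?_)
    rw [Finset.mem_Ico, nd_le_iff hv0 htn] at hj
    have h2 : v₁ < nd t j := by
      by_contra h
      push Not at h
      rw [← nd_le_iff hv₁0.le htn] at h
      omega
    rw [abs_mul, abs_of_nonneg (by positivity : 0 ≤ 2 / (t : ℝ))]
    have h3 := gg_gh (by omega : 2 ≤ t) j (by linarith) (by nlinarith)
    have h4 := hT t ht j h2.le hj.2
    gcongr
    linarith
  refine h1.trans_lt ?_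
  have h2 : ∑ j ∈ Ico (NN v₁ t) (NN v t), 2 / (t : ℝ) * (8 * (ε / (16 * (v + 2))))
      ≤ ∑ j ∈ range (NN v t), 2 / (t : ℝ) * (8 * (ε / (16 * (v + 2)))) := by
    apply Finset.sum_le_sum_of_subset_of_nonneg
    · intro j hj
      rw [Finset.mem_Ico] at hj
      rw [Finset.mem_range]; exact hj.2
    · intro j _ _
      positivity
  refine h2.trans_lt ?_
  rw [← Finset.sum_mul]
  have h3 := sum_two_div hv0 htn
  calc (∑ _j ∈ range (NN v t), 2 / (t : ℝ)) * (8 * (ε / (16 * (v + 2))))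
      ≤ (v + 2) * (8 * (ε / (16 * (v + 2)))) := by gcongr
    _ = ε / 2 := by field_simp; ring
    _ < ε := by linarith

end Pool.Agent.Work.MP_10800c_mp
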