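import Mathlib
import Pool.Agent.Work.MP_10800c_mp.Hyperbolic2

/-!
# Feynman checkers: the limits
-/

namespace Pool.Agent.Work.MP_10800c_mp

open Finset Filter Topology

/-- The limiting density, everywhere. -/
noncomputable def HH (u : ℝ) : ℝ :=
  (1 + u / (1 + qq u) + u * (ss u * (1 - ss u)) / (1 + ss u ^ 2)) / 2

lemma HH_continuous : Continuous HH := by
  unfold HH
  have h1 := qq_continuous
  have h2 := ss_continuous
  have h3 : ∀ u, (1 + qq u) ≠ 0 := fun u => by have := qq_nonneg u; linarith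
  have h4 : ∀ u, (1 + ss u ^ 2) ≠ 0 := fun u => by positivity
  fun_prop (disch := first | exact h3 _ | exact h4 _)

lemma hh_continuous : Continuous hh := by
  unfold hh
  have h1 := qq_continuous
  have h3 : ∀ u, (1 + qq u) ≠ 0 := fun u => by have := qq_nonneg u; linarith
  fun_prop (disch := exact h3 _)

lemma HH_eq_hh {u : ℝ} (hu : 2 * u ^ 2 ≤ 1) : HH u = hh u := by
  have h1 : ss u = 0 := Real.sqrt_eq_zero_of_nonpos (by linarith)
  rw [HH, hh, h1]; simp

lemma HH_eq_gh {u : ℝ} (hu : 1 ≤ 2 * u ^ 2) (hu0 : 0 < u) : HH u = gh u := by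
  have h1 : qq u = 0 := Real.sqrt_eq_zero_of_nonpos (by linarith)
  have h2 := ss_sq hu
  have h3 : 1 + ss u ^ 2 = 2 * u ^ 2 := by linarith
  rw [HH, gh, h1, h3]
  field_simp
  linear_combination (-4 : ℝ) * h2

/-- The limit in the elliptic region. -/
theorem limit_elliptic {v : ℝ} (hv : 0 ≤ v) (hv2 : 2 * v ^ 2 < 1) :
    Tendsto (fun t => S v t) atTop (𝓝 (∫ u in (0 : ℝ)..v, hh u)) := by
  have h1 := (elliptic hv hv2).add (riemann_global hh hh_continuous hv)
  rw [zero_add] at h1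
  refine h1.congr' ?_
  filter_upwards [eventually_gt_atTop 0] with t ht
  rw [S_eq hv ht, ← Finset.sum_add_distrib]
  refine Finset.sum_congr rfl fun j _ => ?_
  ring

lemma NN_mono {v w : ℝ} (hv : 0 ≤ v) (hvw : v ≤ w) {t : ℕ} (ht : 0 < t) : NN v t ≤ NN w t := by
  by_contra h
  push Not at h
  rw [nd_le_iff hv ht] at h
  have := nd_NN_gt (hv.trans hvw) ht
  linarith

/-- The limit in the hyperbolic region. -/
theorem limit_hyperbolic {v : ℝ} (hv0 : 0 < v) (hv2 : 1 < 2 * v ^ 2) (hv : v < 1) :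
    Tendsto (fun t => S v t) atTop (𝓝 (∫ u in (0 : ℝ)..v, HH u)) := by
  have hmain : Tendsto (fun t : ℕ => ∑ j ∈ range (NN v t),
      2 / (t : ℝ) * (gg t (pt t j) - HH (nd t j))) atTop (𝓝 0) := by
    obtain ⟨M, hM⟩ := (isCompact_Icc (a := (0 : ℝ)) (b := 1)).exists_bound_of_continuousOn
      HH_continuous.continuousOn
    have hM0 : 0 ≤ M := (norm_nonneg _).trans (hM 0 ⟨le_rfl, zero_le_one⟩)
    rw [Metric.tendsto_atTop]
    intro ε hε
    set c : ℝ := √(1 / 2) with hc
    have hc2 : c ^ 2 = 1 / 2 := by rw [hc, Real.sq_sqrt (by norm_num)]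
    have hc0 : 0 < c := Real.sqrt_pos.2 (by norm_num)
    have hcv : c < v := by nlinarith
    set δ : ℝ := min (min (c / 2) ((v - c) / 2)) (ε / (8 * (1 + M))) with hδ
    have hδ0 : 0 < δ := by
      refine lt_min (lt_min (by positivity) (by linarith)) (by positivity)
    have hδ1 : δ ≤ c / 2 := (min_le_left _ _).trans (min_le_left _ _)
    have hδ2 : δ ≤ (v - c) / 2 := (min_le_left _ _).trans (min_le_right _ _)
    have hδ3 : δ ≤ ε / (8 * (1 + M)) := min_le_right _ _
    have hv₀0 : 0 ≤ c - δ := by linarith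
    have hv₀2 : 2 * (c - δ) ^ 2 < 1 := by nlinarith
    have hv₁0 : 0 < c + δ := by linarith
    have hv₁2 : 1 < 2 * (c + δ) ^ 2 := by nlinarith
    have hv₁v : c + δ ≤ v := by linarith
    have hE := elliptic hv₀0 hv₀2
    have hH := hyper hv₁2 hv₁0 hv₁v hv
    rw [Metric.tendsto_atTop] at hE hH
    obtain ⟨T₁, hT₁⟩ := hE (ε / 8) (by positivity)
    obtain ⟨T₂, hT₂⟩ := hH (ε / 8) (by positivity)
    obtain ⟨T₃, hT₃⟩ := exists_nat_gt (16 * (1 + M) / ε)
    refine ⟨max (max T₁ T₂) (max T₃ 1), fun t ht => ?_⟩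
    have ht1 : T₁ ≤ t := le_trans (le_max_left _ _) (le_trans (le_max_left _ _) ht)
    have ht2 : T₂ ≤ t := le_trans (le_max_right _ _) (le_trans (le_max_left _ _) ht)
    have ht3 : T₃ ≤ t := le_trans (le_max_left _ _) (le_trans (le_max_right _ _) ht)
    have ht4 : 0 < t := le_trans (le_max_right _ _) (le_trans (le_max_right _ _) ht)
    have htpos : (0 : ℝ) < t := by exact_mod_cast ht4
    have hN1 : NN (c - δ) t ≤ NN (c + δ) t := NN_mono hv₀0 (by linarith) ht4
    have hN2 : NN (c + δ) t ≤ NN v t := NN_mono hv₁0.le hv₁v ht4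
    have h1 := hT₁ t ht1
    have h2 := hT₂ t ht2
    rw [dist_zero_right, Real.norm_eq_abs] at h1 h2 ⊢
    have hsplit : ∑ j ∈ range (NN v t), 2 / (t : ℝ) * (gg t (pt t j) - HH (nd t j))
        = ∑ j ∈ range (NN (c - δ) t), 2 / (t : ℝ) * (gg t (pt t j) - hh (nd t j))
          + ∑ j ∈ Ico (NN (c - δ) t) (NN (c + δ) t), 2 / (t : ℝ) * (gg t (pt t j) - HH (nd t j))
          + ∑ j ∈ Ico (NN (c + δ) t) (NN v t), 2 / (t : ℝ) * (gg t (pt t j) - gh (nd t j)) := by
      rw [Finset.range_eq_Ico, ← Finset.sum_Ico_consecutive _ (Nat.zero_le _) hN2,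
        ← Finset.sum_Ico_consecutive _ (Nat.zero_le _) hN1]
      congr 1
      · congr 1
        rw [← Finset.range_eq_Ico]
        refine Finset.sum_congr rfl fun j hj => ?_
        rw [Finset.mem_range, nd_le_iff hv₀0 ht4] at hj
        rw [HH_eq_hh (by nlinarith [nd_nonneg t j])]
      · refine Finset.sum_congr rfl fun j hj => ?_
        rw [Finset.mem_Ico] at hj
        have h3 : c + δ < nd t j := by
          by_contra h
          push Not at h
          rw [← nd_le_iff hv₁0.le ht4] at h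
          omega
        rw [HH_eq_gh (by nlinarith) (by linarith)]
    have hmid : |∑ j ∈ Ico (NN (c - δ) t) (NN (c + δ) t),
        2 / (t : ℝ) * (gg t (pt t j) - HH (nd t j))| ≤ ε / 2 := by
      have h3 : |∑ j ∈ Ico (NN (c - δ) t) (NN (c + δ) t),
        2 / (t : ℝ) * (gg t (pt t j) - HH (nd t j))|
          ≤ ∑ j ∈ Ico (NN (c - δ) t) (NN (c + δ) t), 2 / (t : ℝ) * (1 + M) := by
        refine (Finset.abs_sum_le_sum_abs _ _).trans (Finset.sum_le_sum fun j hj => ?_)
        rw [Finset.mem_Ico, nd_le_iff hv₁0.le ht4] at hj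
        rw [abs_mul, abs_of_nonneg (by positivity : 0 ≤ 2 / (t : ℝ))]
        have h4 := hM (nd t j) ⟨nd_nonneg t j, by linarith⟩
        rw [Real.norm_eq_abs] at h4
        have h5 : |gg t (pt t j) - HH (nd t j)| ≤ 1 + M := by
          refine (abs_sub _ _).trans (add_le_add ?_ h4)
          rw [abs_of_nonneg (gg_nonneg _ _)]
          exact gg_le_one _ _
        gcongr
      refine h3.trans ?_
      rw [Finset.sum_const, Nat.card_Ico, nsmul_eq_mul, Nat.cast_sub hN1]
      have h4 : ((NN (c + δ) t : ℝ) - (NN (c - δ) t : ℝ)) * (2 / (t : ℝ) * (1 + M))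
          = ((nd t (NN (c + δ) t) - nd t 0) - (nd t (NN (c - δ) t) - nd t 0)) * (1 + M) := by
        rw [nd_sub, nd_sub]; ring
      rw [h4]
      have h5 := nd_NN_le hv₁0.le ht4
      have h6 := nd_NN_gt hv₀0 ht4
      have h7 : (nd t (NN (c + δ) t) - nd t 0) - (nd t (NN (c - δ) t) - nd t 0)
          ≤ 2 * δ + 2 / (t : ℝ) := by linarith
      have h8 : 2 / (t : ℝ) * (1 + M) ≤ ε / 8 := by
        rw [div_mul_eq_mul_div, div_le_iff₀ htpos]
        have h9 : 16 * (1 + M) / ε < (t : ℝ) := hT₃.trans_le (by exact_mod_cast ht3)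
        rw [div_lt_iff₀ hε] at h9
        linarith
      have h9 : 2 * δ * (1 + M) ≤ ε / 4 := by
        have h10 : 2 * δ * (1 + M) ≤ 2 * (ε / (8 * (1 + M))) * (1 + M) := by gcongr
        refine h10.trans (le_of_eq ?_)
        field_simp
        ring
      calc ((nd t (NN (c + δ) t) - nd t 0) - (nd t (NN (c - δ) t) - nd t 0)) * (1 + M)
          ≤ (2 * δ + 2 / (t : ℝ)) * (1 + M) := by gcongr
        _ = 2 * δ * (1 + M) + 2 / (t : ℝ) * (1 + M) := by ring
        _ ≤ ε / 2 := by linarith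
    rw [hsplit]
    have h3 := abs_add_le
      (∑ j ∈ range (NN (c - δ) t), 2 / (t : ℝ) * (gg t (pt t j) - hh (nd t j))
        + ∑ j ∈ Ico (NN (c - δ) t) (NN (c + δ) t), 2 / (t : ℝ) * (gg t (pt t j) - HH (nd t j)))
      (∑ j ∈ Ico (NN (c + δ) t) (NN v t), 2 / (t : ℝ) * (gg t (pt t j) - gh (nd t j)))
    have h4 := abs_add_le
      (∑ j ∈ range (NN (c - δ) t), 2 / (t : ℝ) * (gg t (pt t j) - hh (nd t j)))
      (∑ j ∈ Ico (NN (c - δ) t) (NN (c + δ) t), 2 / (t : ℝ) * (gg t (pt t j) - HH (nd t j)))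
    linarith
  have h1 := hmain.add (riemann_global HH HH_continuous hv0.le)
  rw [zero_add] at h1
  refine h1.congr' ?_
  filter_upwards [eventually_gt_atTop 0] with t ht
  rw [S_eq hv0.le ht, ← Finset.sum_add_distrib]
  refine Finset.sum_congr rfl fun j _ => ?_
  ring

/-- The integral of the elliptic density. -/
lemma integral_hh {v : ℝ} (hv : 0 ≤ v) (hv2 : 2 * v ^ 2 ≤ 1) :
    ∫ u in (0 : ℝ)..v, hh u
      = (2 * v + 1 - √(1 - 2 * v ^ 2) + Real.log ((1 + √(1 - 2 * v ^ 2)) / 2)) / 4 := by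
  have h1 : ∀ u : ℝ, 1 + √(1 - 2 * u ^ 2) ≠ 0 := fun u => by
    have := Real.sqrt_nonneg (1 - 2 * u ^ 2); linarith
  have h2 := intervalIntegral.integral_eq_sub_of_hasDerivAt_of_le (a := 0) (b := v)
    (f := fun u => (2 * u + 1 - √(1 - 2 * u ^ 2) + Real.log ((1 + √(1 - 2 * u ^ 2)) / 2)) / 4)
    (f' := hh) hv (by
      have h3 : Continuous (fun u : ℝ => (1 + √(1 - 2 * u ^ 2)) / 2) := by fun_prop
      have h4 : Continuous (fun u : ℝ => Real.log ((1 + √(1 - 2 * u ^ 2)) / 2)) :=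
        h3.log (fun u => by
          have := Real.sqrt_nonneg (1 - 2 * u ^ 2)
          have : 0 < (1 + √(1 - 2 * u ^ 2)) / 2 := by positivity
          exact this.ne')
      have h5 : Continuous (fun u : ℝ => (2 * u + 1 - √(1 - 2 * u ^ 2)
        + Real.log ((1 + √(1 - 2 * u ^ 2)) / 2)) / 4) := by fun_prop
      exact h5.continuousOn) (by
      intro u hu
      have hu2 : 0 < 1 - 2 * u ^ 2 := by nlinarith [hu.1, hu.2]
      have hq : 0 < √(1 - 2 * u ^ 2) := Real.sqrt_pos.2 hu2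
      have hd1 : HasDerivAt (fun u : ℝ => 1 - 2 * u ^ 2) (-(4 * u)) u := by
        refine (((hasDerivAt_pow 2 u).const_mul 2).const_sub 1).congr_deriv ?_
        norm_num; ring
      have hd2 : HasDerivAt (fun u : ℝ => √(1 - 2 * u ^ 2)) (-(4 * u) / (2 * √(1 - 2 * u ^ 2))) u :=
        hd1.sqrt hu2.ne'
      have hd3 : HasDerivAt (fun u : ℝ => (1 + √(1 - 2 * u ^ 2)) / 2)
          (-(4 * u) / (2 * √(1 - 2 * u ^ 2)) / 2) u := (hd2.const_add 1).div_const 2
      have hd4 := hd3.log (by positivity : (1 + √(1 - 2 * u ^ 2)) / 2 ≠ 0)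
      have hd5 : HasDerivAt (fun u : ℝ => 2 * u + 1) 2 u := by
        simpa using ((hasDerivAt_id u).const_mul 2).add_const 1
      refine (((hd5.sub hd2).add hd4).div_const 4).congr_deriv ?_
      rw [hh, qq]
      have h6 := h1 u
      field_simp
      ring)
    (hh_continuous.intervalIntegrable _ _)
  rw [h2]
  simp

/-- The integral of the hyperbolic density. -/
lemma integral_gh {c v : ℝ} (hc0 : 0 < c) (hc2 : 1 ≤ 2 * c ^ 2) (hcv : c ≤ v) :
    ∫ u in c..v, gh u
      = (2 * v + Real.log v + √(2 * v ^ 2 - 1) - Real.arctan (√(2 * v ^ 2 - 1))) / 4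
        - (2 * c + Real.log c + √(2 * c ^ 2 - 1) - Real.arctan (√(2 * c ^ 2 - 1))) / 4 := by
  have h2 := intervalIntegral.integral_eq_sub_of_hasDerivAt_of_le (a := c) (b := v)
    (f := fun u => (2 * u + Real.log u + √(2 * u ^ 2 - 1) - Real.arctan (√(2 * u ^ 2 - 1))) / 4)
    (f' := gh) hcv (by
      have h3 : Continuous (fun u : ℝ => Real.arctan (√(2 * u ^ 2 - 1))) :=
        Real.continuous_arctan.comp (by fun_prop)
      have h4 : ContinuousOn Real.log (Set.Icc c v) :=
        Real.continuousOn_log.mono (fun u hu => by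
          have : 0 < u := lt_of_lt_of_le hc0 hu.1
          simpa using this.ne')
      have h5 : Continuous (fun u : ℝ => 2 * u) := by fun_prop
      have h6 : Continuous (fun u : ℝ => √(2 * u ^ 2 - 1)) := by fun_prop
      exact ((((h5.continuousOn).add h4).add h6.continuousOn).sub h3.continuousOn).div_const 4) (by
      intro u hu
      have hu0 : 0 < u := lt_trans hc0 hu.1
      have hu2 : 0 < 2 * u ^ 2 - 1 := by nlinarith [hu.1, hu.2]
      have hq : 0 < √(2 * u ^ 2 - 1) := Real.sqrt_pos.2 hu2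
      have hd1 : HasDerivAt (fun u : ℝ => 2 * u ^ 2 - 1) (4 * u) u := by
        refine (((hasDerivAt_pow 2 u).const_mul 2).sub_const 1).congr_deriv ?_
        norm_num; ring
      have hd2 : HasDerivAt (fun u : ℝ => √(2 * u ^ 2 - 1)) ((4 * u) / (2 * √(2 * u ^ 2 - 1))) u :=
        hd1.sqrt hu2.ne'
      have hd3 := hd2.arctan
      have hd4 := Real.hasDerivAt_log hu0.ne'
      have hd5 : HasDerivAt (fun u : ℝ => 2 * u) 2 u := by
        simpa using ((hasDerivAt_id u).const_mul 2)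
      refine ((((hd5.add hd4).add hd2).sub hd3).div_const 4).congr_deriv ?_
      have h7 : √(2 * u ^ 2 - 1) ^ 2 = 2 * u ^ 2 - 1 := Real.sq_sqrt hu2.le
      rw [gh, ss, h7]
      have h8 : 1 + (2 * u ^ 2 - 1) = 2 * u ^ 2 := by ring
      rw [h8]
      field_simp
      linear_combination (-4 : ℝ) * h7)
    (by
      have h9 : ContinuousOn gh (Set.uIcc c v) := by
        rw [Set.uIcc_of_le hcv]
        unfold gh
        have := ss_continuous
        apply ContinuousOn.add continuousOn_const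
        apply ContinuousOn.div (by fun_prop) (by fun_prop)
        intro u hu
        have : 0 < u := lt_of_lt_of_le hc0 hu.1
        positivity
      exact h9.intervalIntegrable)
  rw [h2]

/-- The integral of the density in the hyperbolic region. -/
lemma integral_HH {v : ℝ} (hv0 : 0 < v) (hv2 : 1 < 2 * v ^ 2) :
    ∫ u in (0 : ℝ)..v, HH u
      = (2 * v + 1 + Real.log (v / √2) + √(2 * v ^ 2 - 1) - Real.arctan (√(2 * v ^ 2 - 1))) / 4 := by
  set c : ℝ := 1 / √2 with hc
  have h20 : (0 : ℝ) < √2 := Real.sqrt_pos.2 two_pos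
  have h22 : √(2 : ℝ) ^ 2 = 2 := Real.sq_sqrt two_pos.le
  have hc2 : c ^ 2 = 1 / 2 := by rw [hc, div_pow, h22]; norm_num
  have hc0 : 0 < c := by positivity
  have hcv : c ≤ v := by nlinarith
  rw [← intervalIntegral.integral_add_adjacent_intervals
    (HH_continuous.intervalIntegrable 0 c) (HH_continuous.intervalIntegrable c v)]
  have h1 : ∫ u in (0 : ℝ)..c, HH u = ∫ u in (0 : ℝ)..c, hh u := by
    apply intervalIntegral.integral_congr
    intro u hu
    rw [Set.uIcc_of_le hc0.le] at hu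
    exact HH_eq_hh (by nlinarith [hu.1, hu.2])
  have h2 : ∫ u in c..v, HH u = ∫ u in c..v, gh u := by
    apply intervalIntegral.integral_congr
    intro u hu
    rw [Set.uIcc_of_le hcv] at hu
    exact HH_eq_gh (by nlinarith [hu.1, hu.2]) (lt_of_lt_of_le hc0 hu.1)
  rw [h1, h2, integral_hh hc0.le (by rw [hc2]; norm_num),
    integral_gh hc0 (by rw [hc2]; norm_num) hcv]
  have h3 : 1 - 2 * c ^ 2 = 0 := by rw [hc2]; norm_num
  have h4 : 2 * c ^ 2 - 1 = 0 := by rw [hc2]; norm_num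
  rw [h3, h4, Real.sqrt_zero, Real.arctan_zero]
  have h5 : Real.log c = -Real.log (√2) := by
    rw [hc, one_div, Real.log_inv]
  have h6 : Real.log (v / √2) = Real.log v - Real.log (√2) := Real.log_div hv0.ne' h20.ne'
  have h7 : Real.log (√(2 : ℝ)) = Real.log 2 / 2 := by rw [Real.log_sqrt two_pos.le]
  have h8 : Real.log ((1 + 0) / 2 : ℝ) = -Real.log 2 := by
    rw [add_zero, one_div, Real.log_inv]
  rw [h5, h6, h8, h7]
  ring

/-- The posed value is strictly smaller. -/
lemma posed_lt {v : ℝ} (hv : 0 < v) (hv2 : 2 * v ^ 2 < 1) :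
    (1 + v - √(1 - v ^ 2) + Real.log ((1 + √(1 - v ^ 2)) / 2)) / 2 <
      (2 * v + 1 - √(1 - 2 * v ^ 2) + Real.log ((1 + √(1 - 2 * v ^ 2)) / 2)) / 4 := by
  rw [← integral_hh hv.le hv2.le]
  have h1 : ∀ u : ℝ, 1 + √(1 - u ^ 2) ≠ 0 := fun u => by
    have := Real.sqrt_nonneg (1 - u ^ 2); linarith
  have hcont : Continuous (fun u : ℝ => (1 + u / (1 + √(1 - u ^ 2))) / 2) := by
    fun_prop (disch := exact h1 _)
  have h2 := intervalIntegral.integral_eq_sub_of_hasDerivAt_of_le (a := 0) (b := v)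
    (f := fun u => (1 + u - √(1 - u ^ 2) + Real.log ((1 + √(1 - u ^ 2)) / 2)) / 2)
    (f' := fun u => (1 + u / (1 + √(1 - u ^ 2))) / 2) hv.le (by
      have h3 : Continuous (fun u : ℝ => (1 + √(1 - u ^ 2)) / 2) := by fun_prop
      have h4 : Continuous (fun u : ℝ => Real.log ((1 + √(1 - u ^ 2)) / 2)) :=
        h3.log (fun u => by
          have := Real.sqrt_nonneg (1 - u ^ 2)
          have : 0 < (1 + √(1 - u ^ 2)) / 2 := by positivity
          exact this.ne')
      have h5 : Continuous (fun u : ℝ => (1 + u - √(1 - u ^ 2)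
        + Real.log ((1 + √(1 - u ^ 2)) / 2)) / 2) := by fun_prop
      exact h5.continuousOn) (by
      intro u hu
      have hu2 : 0 < 1 - u ^ 2 := by nlinarith [hu.1, hu.2]
      have hq : 0 < √(1 - u ^ 2) := Real.sqrt_pos.2 hu2
      have hd1 : HasDerivAt (fun u : ℝ => 1 - u ^ 2) (-(2 * u)) u := by
        refine ((hasDerivAt_pow 2 u).const_sub 1).congr_deriv ?_
        norm_num
      have hd2 : HasDerivAt (fun u : ℝ => √(1 - u ^ 2)) (-(2 * u) / (2 * √(1 - u ^ 2))) u :=
        hd1.sqrt hu2.ne'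
      have hd3 : HasDerivAt (fun u : ℝ => (1 + √(1 - u ^ 2)) / 2)
          (-(2 * u) / (2 * √(1 - u ^ 2)) / 2) u := (hd2.const_add 1).div_const 2
      have hd4 := hd3.log (by positivity : (1 + √(1 - u ^ 2)) / 2 ≠ 0)
      have hd5 : HasDerivAt (fun u : ℝ => 1 + u) 1 u := by
        simpa using (hasDerivAt_id u).const_add 1
      refine (((hd5.sub hd2).add hd4).div_const 2).congr_deriv ?_
      have h6 := h1 u
      field_simp
      ring)
    (hcont.intervalIntegrable _ _)
  have h3 : (1 + v - √(1 - v ^ 2) + Real.log ((1 + √(1 - v ^ 2)) / 2)) / 2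
      = ∫ u in (0 : ℝ)..v, (1 + u / (1 + √(1 - u ^ 2))) / 2 := by
    rw [h2]; simp
  rw [h3]
  have hle : ∀ u ∈ Set.Ioc 0 v, (1 + u / (1 + √(1 - u ^ 2))) / 2 < hh u := by
    intro u hu
    rw [hh, qq]
    have hu2 : 2 * u ^ 2 < 1 := by nlinarith [hu.1, hu.2]
    have hu0 : 0 < u := hu.1
    have h4 : √(1 - 2 * u ^ 2) < √(1 - u ^ 2) := by
      apply Real.sqrt_lt_sqrt (by linarith)
      nlinarith
    have h5 : 0 ≤ √(1 - 2 * u ^ 2) := Real.sqrt_nonneg _
    have h6 : u / (1 + √(1 - u ^ 2)) < u / (1 + √(1 - 2 * u ^ 2)) := by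
      apply div_lt_div_of_pos_left hu0 (by linarith) (by linarith)
    linarith
  apply intervalIntegral.integral_lt_integral_of_continuousOn_of_le_of_exists_lt hv
    hcont.continuousOn hh_continuous.continuousOn (fun u hu => (hle u hu).le)
  exact ⟨v, ⟨hv.le, le_rfl⟩, hle v ⟨hv, le_rfl⟩⟩

end Pool.Agent.Work.MP_10800c_mp
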